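import Mathlib

set_option autoImplicit false

/-!
Sets of integer vectors with the exchange property (bases of discrete polymatroids): sums,
transitivity of the exchange relation, closed sets, and the theorem on dropping a summand.
-/

namespace Pool.Agent.Q123

open Finset

variable {ι : Type*} [DecidableEq ι]

/-- the one-sided exchange property of a set of integer vectors -/
def Exch (B : Set (ι → ℤ)) : Prop :=
  ∀ u ∈ B, ∀ v ∈ B, ∀ p, v p < u p → ∃ q, u q < v q ∧ u - Pi.single p 1 + Pi.single q 1 ∈ B

/-- the distance -/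
def vdist [Fintype ι] (u v : ι → ℤ) : ℕ := ∑ i, (u i - v i).natAbs

theorem vdist_exch [Fintype ι] {u v : ι → ℤ} {p q : ι} (hp : v p < u p) (hq : u q < v q) :
    vdist (u - Pi.single p 1 + Pi.single q 1) v + 2 = vdist u v := by
  have hpq : p ≠ q := by rintro rfl; omega
  have h : ∀ i, ((u - Pi.single p 1 + Pi.single q 1 : ι → ℤ) i - v i).natAbs +
      ((if i = p then 1 else 0) + (if i = q then 1 else 0)) = (u i - v i).natAbs := by
    intro i
    simp only [Pi.add_apply, Pi.sub_apply, Pi.single_apply]
    by_cases h1 : i = p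
    · subst h1
      rw [if_pos rfl, if_pos rfl, if_neg hpq, if_neg hpq]
      omega
    · by_cases h2 : i = q
      · subst h2
        rw [if_neg h1, if_neg h1, if_pos rfl, if_pos rfl]
        omega
      · simp only [if_neg h1, if_neg h2]
        omega
  have h2 : ∑ i, ((if i = p then 1 else 0) + (if i = q then 1 else 0)) = 2 := by
    rw [Finset.sum_add_distrib]
    simp
  unfold vdist
  rw [← h2, ← Finset.sum_add_distrib]
  exact Finset.sum_congr rfl fun i _ => h i

/-- the sum of two sets with the exchange property has it -/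
theorem Exch.add [Fintype ι] {B C : Set (ι → ℤ)} (hB : Exch B) (hC : Exch C) :
    Exch {w | ∃ b ∈ B, ∃ c ∈ C, w = b + c} := by
  rintro x ⟨x1, hx1, x2, hx2, hx⟩ y ⟨y1, hy1, y2, hy2, hy⟩ p hp
  have key : ∀ N : ℕ, ∀ X1 ∈ B, ∀ X2 ∈ C, ∀ c : ι,
      X1 + X2 = x - Pi.single p 1 + Pi.single c 1 → vdist X1 y1 + vdist X2 y2 ≤ N →
      ∃ q, x q < y q ∧ x - Pi.single p 1 + Pi.single q 1 ∈ {w | ∃ b ∈ B, ∃ c ∈ C, w = b + c} := by
    intro N
    induction N with
    | zero =>
      intro X1 hX1 X2 hX2 c hc hN
      by_cases hcc : x c < y c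
      · exact ⟨c, hcc, X1, hX1, X2, hX2, hc.symm⟩
      exfalso
      have e1 : (X1 c - y1 c).natAbs ≤ vdist X1 y1 :=
        Finset.single_le_sum (f := fun i => (X1 i - y1 i).natAbs) (fun _ _ => Nat.zero_le _)
          (Finset.mem_univ c)
      have e2 : (X2 c - y2 c).natAbs ≤ vdist X2 y2 :=
        Finset.single_le_sum (f := fun i => (X2 i - y2 i).natAbs) (fun _ _ => Nat.zero_le _)
          (Finset.mem_univ c)
      have e3 : X1 c + X2 c = x c - (Pi.single p 1 : ι → ℤ) c + 1 := by
        have := congrFun hc c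
        simpa using this
      have e4 : y c = y1 c + y2 c := by rw [hy]; rfl
      by_cases hcp : c = p
      · subst hcp
        rw [Pi.single_eq_same] at e3
        omega
      · rw [Pi.single_eq_of_ne hcp] at e3
        omega
    | succ N ih =>
      intro X1 hX1 X2 hX2 c hc hN
      by_cases hcc : x c < y c
      · exact ⟨c, hcc, X1, hX1, X2, hX2, hc.symm⟩
      have e3 : X1 c + X2 c = x c - (Pi.single p 1 : ι → ℤ) c + 1 := by
        have := congrFun hc c
        simpa using this
      have e4 : y c = y1 c + y2 c := by rw [hy]; rfl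
      have e5 : y1 c < X1 c ∨ y2 c < X2 c := by
        by_cases hcp : c = p
        · subst hcp
          rw [Pi.single_eq_same] at e3
          omega
        · rw [Pi.single_eq_of_ne hcp] at e3
          omega
      rcases e5 with h | h
      · obtain ⟨c', hc', hm⟩ := hB X1 hX1 y1 hy1 c h
        refine ih _ hm X2 hX2 c' ?_ ?_
        · rw [show X1 - Pi.single c 1 + Pi.single c' 1 + X2 =
            (X1 + X2) - Pi.single c 1 + Pi.single c' 1 by abel, hc]
          abel
        · have := vdist_exch h hc'
          omega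
      · obtain ⟨c', hc', hm⟩ := hC X2 hX2 y2 hy2 c h
        refine ih X1 hX1 _ hm c' ?_ ?_
        · rw [show X1 + (X2 - Pi.single c 1 + Pi.single c' 1) =
            (X1 + X2) - Pi.single c 1 + Pi.single c' 1 by abel, hc]
          abel
        · have := vdist_exch h hc'
          omega
  exact key _ x1 hx1 x2 hx2 p (by rw [← hx]; abel) le_rfl

/-- transitivity of the exchange relation -/
theorem Exch.trans {B : Set (ι → ℤ)} (hB : Exch B) {v : ι → ℤ} {x y z : ι}
    (h1 : v + Pi.single x 1 - Pi.single y 1 ∈ B) (h2 : v + Pi.single y 1 - Pi.single z 1 ∈ B) :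
    v + Pi.single x 1 - Pi.single z 1 ∈ B := by
  by_cases hyz : y = z
  · subst hyz; exact h1
  by_cases hxy : x = y
  · subst hxy; exact h2
  obtain ⟨q, hq, hm⟩ := hB _ h1 _ h2 z (by
    simp only [Pi.add_apply, Pi.sub_apply, Pi.single_apply]
    split_ifs <;> simp_all)
  have hqy : q = y := by
    by_contra hne
    simp only [Pi.add_apply, Pi.sub_apply, Pi.single_apply] at hq
    split_ifs at hq <;> simp_all <;> omega
  subst hqy
  rw [show v + Pi.single x 1 - Pi.single q 1 - Pi.single z 1 + Pi.single q 1 =
    v + Pi.single x 1 - Pi.single z 1 by abel] at hm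
  exact hm

/-- A set closed under the exchange relation of `u` is a set on which `u` is maximal. -/
theorem Exch.closed [Fintype ι] {B : Set (ι → ℤ)} (hB : Exch B) {d : ℤ}
    (hd : ∀ w ∈ B, ∑ i, w i = d) (T : Finset ι) {w : ι → ℤ} (hw : w ∈ B) :
    ∀ u ∈ B, (∀ x ∈ T, ∀ y ∉ T, u + Pi.single x 1 - Pi.single y 1 ∉ B) →
      ∑ i ∈ T, w i ≤ ∑ i ∈ T, u i := by
  suffices h : ∀ N : ℕ, ∀ u ∈ B, vdist u w ≤ N →
      (∀ x ∈ T, ∀ y ∉ T, u + Pi.single x 1 - Pi.single y 1 ∉ B) →
      ∑ i ∈ T, w i ≤ ∑ i ∈ T, u i from fun u hu hT => h _ u hu le_rfl hT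
  intro N
  induction N with
  | zero =>
    intro u _ hN _
    have : ∀ i, u i = w i := by
      intro i
      have e1 : (u i - w i).natAbs ≤ vdist u w :=
        Finset.single_le_sum (f := fun i => (u i - w i).natAbs) (fun _ _ => Nat.zero_le _)
          (Finset.mem_univ i)
      omega
    exact (Finset.sum_congr rfl fun i _ => (this i).symm).le
  | succ N ih =>
    intro u hu hN hT
    by_contra hlt
    rw [not_le] at hlt
    have hsplit : ∀ f : ι → ℤ, ∑ i, f i = ∑ i ∈ T, f i + ∑ i ∈ Tᶜ, f i := fun f =>
      (Finset.sum_add_sum_compl T f).symm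
    have h1 : ∑ i ∈ Tᶜ, w i < ∑ i ∈ Tᶜ, u i := by
      have e1 := hsplit u
      have e2 := hsplit w
      rw [hd u hu] at e1
      rw [hd w hw] at e2
      omega
    obtain ⟨p, hp, hpw⟩ := Finset.exists_lt_of_sum_lt h1
    rw [Finset.mem_compl] at hp
    obtain ⟨q, hq, hm⟩ := hB u hu w hw p hpw
    have hqT : q ∉ T := by
      intro hqT
      apply hT q hqT p hp
      rwa [show u + Pi.single q 1 - Pi.single p 1 = u - Pi.single p 1 + Pi.single q 1 by abel]
    have hpq : p ≠ q := by rintro rfl; omega
    have hsum : ∑ i ∈ T, (u - Pi.single p 1 + Pi.single q 1 : ι → ℤ) i = ∑ i ∈ T, u i := by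
      refine Finset.sum_congr rfl fun i hi => ?_
      have h1 : i ≠ p := by rintro rfl; exact hp hi
      have h2 : i ≠ q := by rintro rfl; exact hqT hi
      simp [h1, h2]
    have hdist := vdist_exch hpw hq
    have := ih _ hm (by omega) (by
      intro x hx t ht hmem
      by_cases htq : t = q
      · subst htq
        apply hT x hx p hp
        rwa [show u - Pi.single p 1 + Pi.single t 1 + Pi.single x 1 - Pi.single t 1 =
          u + Pi.single x 1 - Pi.single p 1 by abel] at hmem
      · have hqx : q ≠ x := by rintro rfl; exact hqT hx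
        obtain ⟨q', hq', hm'⟩ := hB _ hmem u hu q (by
          simp [hpq.symm, hqx, Ne.symm htq])
        have hq'' : q' = p ∨ q' = t := by
          by_contra hne
          push Not at hne
          obtain ⟨h3, h4⟩ := hne
          simp only [Pi.add_apply, Pi.sub_apply, Pi.single_eq_of_ne h3,
            Pi.single_eq_of_ne h4] at hq'
          have h5 : (0 : ℤ) ≤ (Pi.single q 1 : ι → ℤ) q' := by
            rw [Pi.single_apply]; split_ifs <;> norm_num
          have h6 : (0 : ℤ) ≤ (Pi.single x 1 : ι → ℤ) q' := by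
            rw [Pi.single_apply]; split_ifs <;> norm_num
          omega
        rcases hq'' with rfl | rfl
        · apply hT x hx t ht
          rwa [show u - Pi.single q' 1 + Pi.single q 1 + Pi.single x 1 - Pi.single t 1 -
            Pi.single q 1 + Pi.single q' 1 = u + Pi.single x 1 - Pi.single t 1 by abel] at hm'
        · apply hT x hx p hp
          rwa [show u - Pi.single p 1 + Pi.single q 1 + Pi.single x 1 - Pi.single q' 1 -
            Pi.single q 1 + Pi.single q' 1 = u + Pi.single x 1 - Pi.single p 1 by abel] at hm')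
    rw [hsum] at this
    omega

/-- the `k`-fold sums -/
def msum (B : Set (ι → ℤ)) (k : ℕ) : Set (ι → ℤ) :=
  {v | ∃ u : Fin k → (ι → ℤ), (∀ s, u s ∈ B) ∧ v = ∑ s, u s}

theorem msum_exch [Fintype ι] {B : Set (ι → ℤ)} (hB : Exch B) (k : ℕ) : Exch (msum B k) := by
  induction k with
  | zero =>
    rintro u ⟨f, -, rfl⟩ v ⟨g, -, rfl⟩ p hp
    simp at hp
  | succ k ih =>
    have : msum B (k + 1) = {w | ∃ b ∈ B, ∃ c ∈ msum B k, w = b + c} := by
      ext w
      constructor
      · rintro ⟨u, hu, rfl⟩
        exact ⟨u 0, hu 0, ∑ s : Fin k, u s.succ, ⟨fun s => u s.succ, fun s => hu _, rfl⟩,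
          Fin.sum_univ_succ u⟩
      · rintro ⟨b, hb, c, ⟨u, hu, rfl⟩, rfl⟩
        refine ⟨Fin.cons b u, ?_, ?_⟩
        · intro s
          refine Fin.cases ?_ (fun t => ?_) s
          · simpa using hb
          · simpa using hu t
        · rw [Fin.sum_univ_succ]
          simp
    rw [this]
    exact Exch.add hB ih

omit [DecidableEq ι] in
theorem msum_sum [Fintype ι] {B : Set (ι → ℤ)} {d : ℤ} (hd : ∀ w ∈ B, ∑ i, w i = d) (k : ℕ)
    {v : ι → ℤ} (hv : v ∈ msum B k) : ∑ i, v i = k * d := by
  obtain ⟨u, hu, rfl⟩ := hv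
  simp only [Finset.sum_apply]
  rw [Finset.sum_comm, Finset.sum_congr rfl fun s _ => hd _ (hu s)]
  simp

/-- the indicator vector of a finite set -/
def ivec (F : Finset ι) : ι → ℤ := fun j => if j ∈ F then 1 else 0

theorem ivec_exchange {F : Finset ι} {j l : ι} (hj : j ∈ F) (hl : l ∉ F) :
    ivec (insert l (F.erase j)) = ivec F - Pi.single j 1 + Pi.single l 1 := by
  have hjl : j ≠ l := by rintro rfl; exact hl hj
  ext i
  simp only [ivec, Pi.add_apply, Pi.sub_apply, Pi.single_apply, Finset.mem_insert,
    Finset.mem_erase]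
  by_cases h1 : i = j
  · subst h1
    simp [hj, hjl]
  · by_cases h2 : i = l
    · subst h2
      simp [h1, hl]
    · simp [h1, h2]

/-- **Dropping a summand.** Let `F` have at most `k` elements and `a - 1_F` be a sum of `k + 1`
elements of `B`.  If every `j` is avoided by some `F'` with `a - 1_{F'}` a sum of `k + 1` elements
of `B`, then there is `u ∈ B` such that `a - u` has the same properties with `k` in place of
`k + 1`. -/
theorem Exch.drop [Fintype ι] {B : Set (ι → ℤ)} (hB : Exch B) {d : ℤ}
    (hd : ∀ w ∈ B, ∑ i, w i = d) {k : ℕ} {a : ι → ℤ} {F : Finset ι} (hFk : F.card ≤ k)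
    (hF : a - ivec F ∈ msum B (k + 1))
    (hcf : ∀ j, ∃ F' : Finset ι, j ∉ F' ∧ a - ivec F' ∈ msum B (k + 1)) :
    ∃ u ∈ B, a - u - ivec F ∈ msum B k ∧
      ∀ j, ∃ F' : Finset ι, j ∉ F' ∧ a - u - ivec F' ∈ msum B k := by
  classical
  obtain ⟨u, hu, hv⟩ := hF
  -- the exchange relation of the summands
  let R : Finset (Fin (k + 1)) → ι → ι → Prop := fun S x y =>
    ∃ s ∈ S, u s + Pi.single x 1 - Pi.single y 1 ∈ B
  have hRmono : ∀ S S' : Finset (Fin (k + 1)), S ⊆ S' → ∀ x y, Relation.ReflTransGen (R S) x y →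
      Relation.ReflTransGen (R S') x y := by
    intro S S' hSS' x y h
    induction h with
    | refl => exact Relation.ReflTransGen.refl
    | tail _ hxy ih =>
      obtain ⟨s, hs, h⟩ := hxy
      exact ih.tail ⟨s, hSS' hs, h⟩
  -- every element of `F` reaches the outside of `F`
  have reach : ∀ j ∈ F, ∃ l, l ∉ F ∧ Relation.ReflTransGen (R Finset.univ) j l := by
    intro j hj
    by_contra hne
    push Not at hne
    let T : Finset ι := Finset.univ.filter fun x => Relation.ReflTransGen (R Finset.univ) j x
    have hTF : T ⊆ F := by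
      intro x hx
      by_contra hxF
      exact hne x hxF (Finset.mem_filter.1 hx).2
    have hjT : j ∈ T := Finset.mem_filter.2 ⟨Finset.mem_univ _, Relation.ReflTransGen.refl⟩
    have hclosed : ∀ s, ∀ w ∈ B, ∑ i ∈ T, w i ≤ ∑ i ∈ T, u s i := by
      intro s w hw
      refine hB.closed hd T hw (u s) (hu s) ?_
      intro x hx y hy hmem
      apply hy
      exact Finset.mem_filter.2 ⟨Finset.mem_univ _,
        (Finset.mem_filter.1 hx).2.tail ⟨s, Finset.mem_univ _, hmem⟩⟩
    obtain ⟨F', hjF', w, hw, hwF'⟩ := hcf j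
    have h1 : ∑ i ∈ T, (a - ivec F' : ι → ℤ) i ≤ ∑ i ∈ T, (a - ivec F : ι → ℤ) i := by
      rw [hv, hwF']
      simp only [Finset.sum_apply]
      rw [Finset.sum_comm, Finset.sum_comm (s := T)]
      exact Finset.sum_le_sum fun s _ => hclosed s _ (hw s)
    simp only [Pi.sub_apply, Finset.sum_sub_distrib] at h1
    have h2 : ∑ i ∈ T, ivec F i = T.card := by
      rw [Finset.sum_congr rfl (g := fun _ => (1 : ℤ))]
      · simp
      · intro i hi
        simp [ivec, hTF hi]
    have h3 : ∑ i ∈ T, ivec F' i < T.card := by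
      have : ∑ i ∈ T, ivec F' i = (T.filter (· ∈ F')).card := by
        simp only [ivec]
        rw [Finset.sum_ite]
        simp
      rw [this]
      have : (T.filter (· ∈ F')).card < T.card := by
        apply Finset.card_lt_card
        refine ⟨Finset.filter_subset _ _, fun hle => ?_⟩
        exact hjF' (Finset.mem_filter.1 (hle hjT)).2
      exact_mod_cast this
    omega
  -- few summands are needed
  have few : ∀ m : ℕ, m ≤ F.card → ∃ G : Finset ι, G ⊆ F ∧ G.card = m ∧
      ∃ S : Finset (Fin (k + 1)), S.card ≤ m ∧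
        ∀ j ∈ G, ∃ l, l ∉ F ∧ Relation.ReflTransGen (R S) j l := by
    intro m
    induction m with
    | zero =>
      intro _
      exact ⟨∅, by simp, by simp, ∅, by simp, by simp⟩
    | succ m ih =>
      intro hm
      obtain ⟨G, hG, hGm, S, hS, hGS⟩ := ih (by omega)
      obtain ⟨j, hj, hjG⟩ : ∃ j ∈ F, j ∉ G := by
        by_contra hne
        push Not at hne
        have := Finset.card_le_card (show F ⊆ G from hne)
        omega
      obtain ⟨l, hl, hpath⟩ := reach j hj
      -- the first arrow leaving `F \ G`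
      have hcross : ∃ x y, (x ∈ F ∧ x ∉ G) ∧ ¬ (y ∈ F ∧ y ∉ G) ∧ R Finset.univ x y := by
        by_contra hne
        push Not at hne
        have hall : ∀ z, Relation.ReflTransGen (R Finset.univ) j z → z ∈ F ∧ z ∉ G := by
          intro z hz
          induction hz with
          | refl => exact ⟨hj, hjG⟩
          | tail _ hxy ih => 
            by_contra hcon
            exact hne _ _ ih (fun h1 => by
              by_contra h2
              exact hcon ⟨h1, h2⟩) hxy
        exact hl (hall l hpath).1
      obtain ⟨x, y, ⟨hxF, hxG⟩, hy, s, -, hs⟩ := hcross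
      refine ⟨insert x G, ?_, ?_, insert s S, ?_, ?_⟩
      · intro z hz
        rcases Finset.mem_insert.1 hz with rfl | hz
        · exact hxF
        · exact hG hz
      · rw [Finset.card_insert_of_notMem hxG, hGm]
      · exact (Finset.card_insert_le _ _).trans (by omega)
      · intro z hz
        rcases Finset.mem_insert.1 hz with rfl | hz
        · by_cases hyF : y ∈ F
          · have hyG : y ∈ G := by
              by_contra h
              exact hy ⟨hyF, h⟩
            obtain ⟨l', hl', hp⟩ := hGS y hyG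
            exact ⟨l', hl', Relation.ReflTransGen.head ⟨s, Finset.mem_insert_self _ _, hs⟩
              (hRmono _ _ (Finset.subset_insert _ _) _ _ hp)⟩
          · exact ⟨y, hyF, Relation.ReflTransGen.single ⟨s, Finset.mem_insert_self _ _, hs⟩⟩
        · obtain ⟨l', hl', hp⟩ := hGS z hz
          exact ⟨l', hl', hRmono _ _ (Finset.subset_insert _ _) _ _ hp⟩
  obtain ⟨G, hG, hGc, S, hS, hGS⟩ := few F.card le_rfl
  have hGF : G = F := Finset.eq_of_subset_of_card_le hG hGc.ge
  rw [hGF] at hGS
  -- an unused summand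
  obtain ⟨s0, hs0⟩ : ∃ s0, s0 ∉ S := by
    by_contra hne
    push Not at hne
    have : (Finset.univ : Finset (Fin (k + 1))) ⊆ S := fun s _ => hne s
    have := Finset.card_le_card this
    simp at this
    omega
  have hv' : a - u s0 - ivec F = ∑ t : Fin k, u (s0.succAbove t) := by
    rw [show a - u s0 - ivec F = (a - ivec F) - u s0 by abel, hv, Fin.sum_univ_succAbove u s0]
    abel
  have hmem : a - u s0 - ivec F ∈ msum B k := ⟨_, fun t => hu _, hv'⟩
  refine ⟨u s0, hu s0, hmem, fun j => ?_⟩
  by_cases hj : j ∈ F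
  · obtain ⟨l, hl, hp⟩ := hGS j hj
    have hexch := msum_exch hB k
    have harrow : ∀ x y, R S x y →
        a - u s0 - ivec F + Pi.single x 1 - Pi.single y 1 ∈ msum B k := by
      rintro x y ⟨s, hs, hmem⟩
      have hne : s ≠ s0 := by rintro rfl; exact hs0 hs
      obtain ⟨t, rfl⟩ := Fin.exists_succAbove_eq hne
      refine ⟨Function.update (fun t => u (s0.succAbove t)) t
        (u (s0.succAbove t) + Pi.single x 1 - Pi.single y 1), ?_, ?_⟩
      · intro t'
        by_cases h : t' = t
        · subst h
          rw [Function.update_self]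
          exact hmem
        · rw [Function.update_of_ne h]
          exact hu _
      · rw [Finset.sum_update_of_mem (Finset.mem_univ t), hv',
          ← Finset.add_sum_erase Finset.univ (fun t => u (s0.succAbove t)) (Finset.mem_univ t),
          Finset.sdiff_singleton_eq_erase]
        abel
    have hpath : a - u s0 - ivec F + Pi.single j 1 - Pi.single l 1 ∈ msum B k := by
      clear hl
      induction hp with
      | refl => simpa using hmem
      | tail _ hxy ih => exact hexch.trans ih (harrow _ _ hxy)
    refine ⟨insert l (F.erase j), ?_, ?_⟩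
    · have hjl : j ≠ l := by rintro rfl; exact hl hj
      simp [hjl]
    · rw [ivec_exchange hj hl]
      rwa [show a - u s0 - (ivec F - Pi.single j 1 + Pi.single l 1) =
        a - u s0 - ivec F + Pi.single j 1 - Pi.single l 1 by abel]
  · exact ⟨F, hj, hmem⟩

end Pool.Agent.Q123
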