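import Pool.Agent.Q123.Exch

set_option autoImplicit false

/-!
Rank functions of sets with the exchange property, domination, and the exchange property of the
set of the vectors `m` such that the family of the `i`-sets `F` with `m - 1_F ∈ B` is nonempty and
has no element common to all its members.
-/

namespace Pool.Agent.Q123

open Finset

variable {ι : Type*} [DecidableEq ι] [Fintype ι]

/-- **Domination.** If `c` dominates no element of `C` then there is a set `A` on which `c` is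
smaller than every element of `C`. -/
theorem Exch.exists_lt {C : Set (ι → ℤ)} (hC : Exch C) {d : ℤ} (hd : ∀ w ∈ C, ∑ i, w i = d)
    {c : ι → ℤ} (hc : ∀ w ∈ C, ¬ w ≤ c) : ∃ A : Finset ι, ∀ w ∈ C, ∑ i ∈ A, c i < ∑ i ∈ A, w i := by
  classical
  rcases C.eq_empty_or_nonempty with h0 | hne
  · exact ⟨∅, fun w hw => by rw [h0] at hw; exact hw.elim⟩
  -- an element of minimal excess
  let ex : (ι → ℤ) → ℕ := fun w => ∑ i, (w i - c i).toNat
  obtain ⟨w, hw, hmin⟩ : ∃ w ∈ C, ∀ w' ∈ C, ex w ≤ ex w' := by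
    obtain ⟨w, hw, hmin⟩ := (InvImage.wf ex (Nat.lt_wfRel.wf)).has_min C hne
    exact ⟨w, hw, fun w' hw' => not_lt.1 (hmin w' hw')⟩
  obtain ⟨x, hx⟩ : ∃ x, c x < w x := by
    by_contra h
    push Not at h
    exact hc w hw h
  let A : Finset ι := Finset.univ.filter fun y => w - Pi.single x 1 + Pi.single y 1 ∈ C
  have hxA : x ∈ A := Finset.mem_filter.2 ⟨Finset.mem_univ _, by simpa using hw⟩
  have hA : ∀ y ∈ A, c y ≤ w y := by
    intro y hy
    by_contra hlt
    rw [not_le] at hlt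
    have hxy : x ≠ y := by rintro rfl; omega
    have h1 := hmin _ (Finset.mem_filter.1 hy).2
    have h2 : ex (w - Pi.single x 1 + Pi.single y 1) < ex w := by
      apply Finset.sum_lt_sum
      · intro i _
        simp only [Pi.add_apply, Pi.sub_apply, Pi.single_apply]
        by_cases e1 : i = x
        · subst e1
          simp only [if_true, if_neg hxy]
          omega
        · by_cases e2 : i = y
          · subst e2
            simp only [if_true, if_neg e1]
            omega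
          · simp only [if_neg e1, if_neg e2]
            omega
      · refine ⟨x, Finset.mem_univ _, ?_⟩
        simp only [Pi.add_apply, Pi.sub_apply, Pi.single_apply, if_true, if_neg hxy]
        omega
    omega
  refine ⟨A, fun w' hw' => ?_⟩
  have h1 : ∑ i ∈ A, c i < ∑ i ∈ A, w i := Finset.sum_lt_sum hA ⟨x, hxA, hx⟩
  have h2 : ∑ i ∈ Aᶜ, w' i ≤ ∑ i ∈ Aᶜ, w i := by
    refine hC.closed hd Aᶜ hw' w hw ?_
    intro a ha b hb hmem
    rw [Finset.mem_compl] at ha
    rw [Finset.mem_compl, not_not] at hb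
    apply ha
    refine Finset.mem_filter.2 ⟨Finset.mem_univ _, ?_⟩
    have hb' := (Finset.mem_filter.1 hb).2
    have := hC.trans (v := w) (x := a) (y := b) (z := x) hmem
      (by rwa [show w + Pi.single b 1 - Pi.single x 1 = w - Pi.single x 1 + Pi.single b 1 by abel])
    rwa [show w + Pi.single a 1 - Pi.single x 1 = w - Pi.single x 1 + Pi.single a 1 by abel]
      at this
  have h3 := Finset.sum_add_sum_compl A w
  have h4 := Finset.sum_add_sum_compl A w'
  rw [hd w hw] at h3
  rw [hd w' hw'] at h4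
  omega

/-- membership by inequalities -/
theorem Exch.mem_of_forall {C : Set (ι → ℤ)} (hC : Exch C) {d : ℤ} (hd : ∀ w ∈ C, ∑ i, w i = d)
    {m : ι → ℤ} (hm : ∑ i, m i = d) (h : ∀ T : Finset ι, ∃ w ∈ C, ∑ i ∈ T, m i ≤ ∑ i ∈ T, w i) :
    m ∈ C := by
  by_contra hmC
  obtain ⟨A, hA⟩ := hC.exists_lt hd (c := m) (by
    intro w hw hle
    apply hmC
    have : ∀ i, w i = m i := by
      intro i
      by_contra hne
      have h1 : ∑ i, w i < ∑ i, m i :=
        Finset.sum_lt_sum (fun i _ => hle i) ⟨i, Finset.mem_univ _, lt_of_le_of_ne (hle i) hne⟩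
      rw [hd w hw, hm] at h1
      exact lt_irrefl _ h1
    rwa [← funext this])
  obtain ⟨w, hw, hle⟩ := h Aᶜ
  have h1 := hA w hw
  have h3 := Finset.sum_add_sum_compl A w
  have h4 := Finset.sum_add_sum_compl A m
  rw [hd w hw] at h3
  rw [hm] at h4
  omega

/-- the rank function is submodular -/
theorem Exch.submod {B : Set (ι → ℤ)} (hB : Exch B) {d : ℤ} (hd : ∀ w ∈ B, ∑ i, w i = d)
    (hfin : B.Finite) {f : Finset ι → ℤ} (h1 : ∀ T, ∃ w ∈ B, ∑ i ∈ T, w i = f T)
    (h2 : ∀ T, ∀ w ∈ B, ∑ i ∈ T, w i ≤ f T) (S T : Finset ι) :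
    f (S ∪ T) + f (S ∩ T) ≤ f S + f T := by
  classical
  -- an element attaining the maximum on `S ∪ T` and, among those, maximal on `S ∩ T`
  obtain ⟨w, hw, hmax⟩ := Set.exists_max_image {w | w ∈ B ∧ ∑ i ∈ S ∪ T, w i = f (S ∪ T)}
    (fun w => ∑ i ∈ S ∩ T, w i) (hfin.subset fun w hw => hw.1) (by
      obtain ⟨w, hw, he⟩ := h1 (S ∪ T)
      exact ⟨w, hw, he⟩)
  have hcap : f (S ∩ T) ≤ ∑ i ∈ S ∩ T, w i := by
    obtain ⟨w', hw', he⟩ := h1 (S ∩ T)
    rw [← he]
    refine hB.closed hd (S ∩ T) hw' w hw.1 ?_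
    intro x hx y hy hmem
    have hxy : x ≠ y := by rintro rfl; exact hy hx
    have hxU : x ∈ S ∪ T := Finset.mem_union_left _ (Finset.mem_inter.1 hx).1
    have hsum : ∀ U : Finset ι, ∑ i ∈ U, (w + Pi.single x 1 - Pi.single y 1 : ι → ℤ) i =
        ∑ i ∈ U, w i + (if x ∈ U then 1 else 0) - (if y ∈ U then 1 else 0) := by
      intro U
      simp [Finset.sum_add_distrib, Finset.sum_sub_distrib]
    by_cases hyU : y ∈ S ∪ T
    · have h3 := hmax _ (show w + Pi.single x 1 - Pi.single y 1 ∈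
        {w | w ∈ B ∧ ∑ i ∈ S ∪ T, w i = f (S ∪ T)} from ⟨hmem, by
          rw [hsum, if_pos hxU, if_pos hyU, hw.2]; ring⟩)
      rw [hsum, if_pos hx, if_neg hy] at h3
      omega
    · have h3 := h2 (S ∪ T) _ hmem
      rw [hsum, if_pos hxU, if_neg hyU, hw.2] at h3
      omega
  have h3 := h2 S w hw.1
  have h4 := h2 T w hw.1
  have h5 := Finset.sum_union_inter (s₁ := S) (s₂ := T) (f := w)
  rw [hw.2] at h5
  omega

omit [Fintype ι] in
/-- the sets of `i` elements avoiding `j` -/
theorem exch_uniform (i : ℕ) (j : ι) : Exch {w : ι → ℤ | ∃ F : Finset ι, F.card = i ∧ j ∉ F ∧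
    w = ivec F} := by
  rintro _ ⟨F, hF, hjF, rfl⟩ _ ⟨G, hG, hjG, rfl⟩ p hp
  have hpF : p ∈ F ∧ p ∉ G := by
    simp only [ivec] at hp
    split_ifs at hp with h1 h2
    · omega
    · omega
    · exact ⟨by assumption, by assumption⟩
    · omega
  obtain ⟨q, hqG, hqF⟩ : ∃ q ∈ G, q ∉ F := by
    by_contra hne
    push Not at hne
    have : G = F := Finset.eq_of_subset_of_card_le hne (by omega)
    rw [this] at hpF
    exact hpF.2 hpF.1
  refine ⟨q, ?_, insert q (F.erase p), ?_, ?_, (ivec_exchange hpF.1 hqF).symm⟩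
  · simp [ivec, hqG, hqF]
  · rw [Finset.card_insert_of_notMem (by simp [hqF]), Finset.card_erase_of_mem hpF.1, hF]
    have : 0 < F.card := Finset.card_pos.2 ⟨p, hpF.1⟩
    omega
  · have : j ≠ q := by rintro rfl; exact hjG hqG
    simp [this, hjF]

/-- the good vectors: for every `j` there is an `i`-set `F` avoiding `j` with `m - 1_F ∈ B` -/
def GoodZ (B : Set (ι → ℤ)) (i : ℕ) : Set (ι → ℤ) :=
  {m | (∃ F : Finset ι, F.card = i ∧ m - ivec F ∈ B) ∧
    ∀ j, ∃ F : Finset ι, F.card = i ∧ j ∉ F ∧ m - ivec F ∈ B}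

omit [Fintype ι] in
theorem sum_ivec (F T : Finset ι) : ∑ x ∈ T, ivec F x = ((F ∩ T).card : ℤ) := by
  simp only [ivec]
  rw [Finset.sum_ite_mem, Finset.sum_const, Finset.inter_comm]
  simp

theorem goodZ_iff {B : Set (ι → ℤ)} (hB : Exch B) {d : ℤ} (hd : ∀ w ∈ B, ∑ i, w i = d)
    {f : Finset ι → ℤ} (h1 : ∀ T, ∃ w ∈ B, ∑ i ∈ T, w i = f T)
    (h2 : ∀ T, ∀ w ∈ B, ∑ i ∈ T, w i ≤ f T) [Nonempty ι] (i : ℕ) (m : ι → ℤ) :
    m ∈ GoodZ B i ↔ ∑ x, m x = d + i ∧
      ∀ T : Finset ι, T.Nonempty → ∑ x ∈ T, m x ≤ f T + min i (T.card - 1) := by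
  constructor
  · rintro ⟨⟨F, hF, hmF⟩, hcol⟩
    refine ⟨?_, fun T hT => ?_⟩
    · have := hd _ hmF
      simp only [Pi.sub_apply, Finset.sum_sub_distrib] at this
      rw [sum_ivec, Finset.inter_univ, hF] at this
      omega
    · obtain ⟨j, hj⟩ := hT
      obtain ⟨F, hF, hjF, hmF⟩ := hcol j
      have h3 := h2 T _ hmF
      simp only [Pi.sub_apply, Finset.sum_sub_distrib] at h3
      rw [sum_ivec] at h3
      have h4 : (F ∩ T).card ≤ i := hF ▸ Finset.card_le_card Finset.inter_subset_left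
      have h5 : (F ∩ T).card ≤ T.card - 1 := by
        rw [← Finset.card_erase_of_mem hj]
        apply Finset.card_le_card
        intro x hx
        rw [Finset.mem_inter] at hx
        refine Finset.mem_erase.2 ⟨?_, hx.2⟩
        rintro rfl
        exact hjF hx.1
      omega
  · rintro ⟨htot, hT⟩
    have hi : i ≤ Fintype.card ι - 1 := by
      have h3 := hT Finset.univ Finset.univ_nonempty
      rw [htot, Finset.card_univ] at h3
      obtain ⟨w, hw, he⟩ := h1 Finset.univ
      rw [hd w hw] at he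
      omega
    have hall : ∀ j, ∃ F : Finset ι, F.card = i ∧ j ∉ F ∧ m - ivec F ∈ B := by
      intro j
      have hex := hB.add (exch_uniform i j)
      have hmem := hex.mem_of_forall (d := d + i) (m := m) (by
        rintro _ ⟨b, hb, _, ⟨F, hF, -, rfl⟩, rfl⟩
        simp only [Pi.add_apply, Finset.sum_add_distrib]
        rw [hd b hb, sum_ivec, Finset.inter_univ, hF]) htot (by
        intro T
        obtain ⟨w, hw, he⟩ := h1 T
        -- an `i`-set avoiding `j` and meeting `T` as much as possible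
        obtain ⟨F, hF, hjF, hFT⟩ : ∃ F : Finset ι, F.card = i ∧ j ∉ F ∧
            min i (T.card - 1) ≤ (F ∩ T).card := by
          obtain ⟨F1, hF1, hF1c⟩ := Finset.exists_subset_card_eq (s := T.erase j)
            (n := min i (T.card - 1)) (by
              have := Finset.pred_card_le_card_erase (s := T) (a := j)
              omega)
          obtain ⟨F2, hF12, hF2, hF2c⟩ := Finset.exists_subsuperset_card_eq
            (s := F1) (t := Finset.univ.erase j) (n := i)
            (hF1.trans (Finset.erase_subset_erase _ (Finset.subset_univ _))) (by omega) (by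
              rw [Finset.card_erase_of_mem (Finset.mem_univ _), Finset.card_univ]
              exact hi)
          refine ⟨F2, hF2c, fun h => (Finset.mem_erase.1 (hF2 h)).1 rfl, ?_⟩
          rw [← hF1c]
          apply Finset.card_le_card
          intro x hx
          exact Finset.mem_inter.2 ⟨hF12 hx, (Finset.mem_erase.1 (hF1 hx)).2⟩
        refine ⟨w + ivec F, ⟨w, hw, _, ⟨F, hF, hjF, rfl⟩, rfl⟩, ?_⟩
        simp only [Pi.add_apply, Finset.sum_add_distrib]
        rw [he, sum_ivec]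
        rcases T.eq_empty_or_nonempty with h0 | hne
        · subst h0
          obtain ⟨w', -, he'⟩ := h1 ∅
          simp at he'
          simp [← he']
        · have := hT T hne
          omega)
      obtain ⟨b, hb, _, ⟨F, hF, hjF, rfl⟩, rfl⟩ := hmem
      exact ⟨F, hF, hjF, by simpa using hb⟩
    refine ⟨?_, hall⟩
    obtain ⟨j⟩ := (inferInstance : Nonempty ι)
    obtain ⟨F, hF, -, hm⟩ := hall j
    exact ⟨F, hF, hm⟩

/-- the good vectors have the exchange property -/
theorem goodZ_exch {B : Set (ι → ℤ)} (hB : Exch B) {d : ℤ} (hd : ∀ w ∈ B, ∑ i, w i = d)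
    (hfin : B.Finite) (i : ℕ) : Exch (GoodZ B i) := by
  classical
  intro m hm m' hm' p hp
  have : Nonempty ι := ⟨p⟩
  have hBne : B.Nonempty := by
    obtain ⟨⟨F, -, h⟩, -⟩ := hm
    exact ⟨_, h⟩
  have hmax : ∀ T : Finset ι, ∃ w ∈ B, ∀ w' ∈ B, ∑ x ∈ T, w' x ≤ ∑ x ∈ T, w x := fun T =>
    Set.exists_max_image B (fun w => ∑ x ∈ T, w x) hfin hBne
  choose W hW hWmax using hmax
  set f : Finset ι → ℤ := fun T => ∑ x ∈ T, W T x with hf
  have h1 : ∀ T, ∃ w ∈ B, ∑ i ∈ T, w i = f T := fun T => ⟨W T, hW T, rfl⟩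
  have h2 : ∀ T, ∀ w ∈ B, ∑ i ∈ T, w i ≤ f T := fun T w hw => hWmax T w hw
  have hsub := hB.submod hd hfin h1 h2
  have hiff := goodZ_iff hB hd h1 h2 i
  obtain ⟨htot, hle⟩ := (hiff m).1 hm
  obtain ⟨htot', hle'⟩ := (hiff m').1 hm'
  by_contra hcon
  push Not at hcon
  -- tight sets
  let Tight : Finset ι → Prop := fun T =>
    T.Nonempty ∧ p ∉ T ∧ ∑ x ∈ T, m x = f T + min i (T.card - 1)
  have hsum : ∀ q : ι, ∀ U : Finset ι, ∑ i ∈ U, (m - Pi.single p 1 + Pi.single q 1 : ι → ℤ) i =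
      ∑ i ∈ U, m i - (if p ∈ U then 1 else 0) + (if q ∈ U then 1 else 0) := by
    intro q U
    simp [Finset.sum_add_distrib, Finset.sum_sub_distrib]
  have htight : ∀ q, m q < m' q → ∃ T, Tight T ∧ q ∈ T := by
    intro q hq
    have h3 := hcon q hq
    rw [hiff] at h3
    push Not at h3
    obtain ⟨T, hT, hlt⟩ := h3 (by
      rw [hsum, htot]
      simp)
    have h4 := hle T hT
    rw [hsum] at hlt
    refine ⟨T, ⟨hT, ?_, ?_⟩, ?_⟩
    · intro hpT
      rw [if_pos hpT] at hlt
      split_ifs at hlt <;> omega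
    · split_ifs at hlt <;> omega
    · by_contra hqT
      rw [if_neg hqT] at hlt
      split_ifs at hlt <;> omega
  have hunion : ∀ S T, Tight S → Tight T → (S ∩ T).Nonempty → Tight (S ∪ T) := by
    rintro S T ⟨hS1, hS2, hS3⟩ ⟨hT1, hT2, hT3⟩ hST
    refine ⟨hS1.mono Finset.subset_union_left, ?_, ?_⟩
    · simp [hS2, hT2]
    · have h3 := hsub S T
      have h4 := Finset.sum_union_inter (s₁ := S) (s₂ := T) (f := m)
      have h5 := hle (S ∩ T) hST
      have h6 := hle (S ∪ T) (hS1.mono Finset.subset_union_left)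
      have h7 := Finset.card_union_add_card_inter S T
      have h8 : (S ∩ T).card ≤ S.card := Finset.card_le_card Finset.inter_subset_left
      have h9 : (S ∩ T).card ≤ T.card := Finset.card_le_card Finset.inter_subset_right
      have h10 : 0 < (S ∩ T).card := Finset.card_pos.2 hST
      have h11 : min i ((S ∪ T).card - 1) + min i ((S ∩ T).card - 1) ≤
          min i (S.card - 1) + min i (T.card - 1) := by omega
      omega
  -- the maximal tight sets
  let 𝒳 : Finset (Finset ι) := Finset.univ.filter fun X =>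
    Tight X ∧ ∀ Y, Tight Y → X ⊆ Y → Y = X
  have hdisj : (𝒳 : Set (Finset ι)).PairwiseDisjoint id := by
    intro X hX Y hY hne
    have hX' := (Finset.mem_filter.1 (Finset.mem_coe.1 hX)).2
    have hY' := (Finset.mem_filter.1 (Finset.mem_coe.1 hY)).2
    show Disjoint X Y
    rw [Finset.disjoint_iff_inter_eq_empty]
    by_contra h
    have hu := hunion X Y hX'.1 hY'.1 (Finset.nonempty_iff_ne_empty.2 h)
    apply hne
    rw [← hX'.2 _ hu Finset.subset_union_left]
    exact hY'.2 _ hu Finset.subset_union_right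
  have hcover : ∀ q, m q < m' q → q ∈ 𝒳.biUnion id := by
    intro q hq
    obtain ⟨T, hT, hqT⟩ := htight q hq
    obtain ⟨X, hX, hXmax⟩ := Finset.exists_max_image
      (Finset.univ.filter fun X => Tight X ∧ T ⊆ X) Finset.card
      ⟨T, Finset.mem_filter.2 ⟨Finset.mem_univ _, hT, le_rfl⟩⟩
    have hX' := (Finset.mem_filter.1 hX).2
    refine Finset.mem_biUnion.2 ⟨X, Finset.mem_filter.2 ⟨Finset.mem_univ _, hX'.1, ?_⟩,
      hX'.2 hqT⟩
    intro Y hY hXY
    exact (Finset.eq_of_subset_of_card_le hXY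
      (hXmax Y (Finset.mem_filter.2 ⟨Finset.mem_univ _, hY, hX'.2.trans hXY⟩))).symm
  have hpU : p ∉ 𝒳.biUnion id := by
    intro h
    obtain ⟨X, hX, hpX⟩ := Finset.mem_biUnion.1 h
    exact (Finset.mem_filter.1 hX).2.1.2.1 hpX
  have hU : ∑ x ∈ 𝒳.biUnion id, m' x ≤ ∑ x ∈ 𝒳.biUnion id, m x := by
    rw [Finset.sum_biUnion hdisj, Finset.sum_biUnion hdisj]
    refine Finset.sum_le_sum fun X hX => ?_
    have hX' := (Finset.mem_filter.1 hX).2.1
    show ∑ x ∈ X, m' x ≤ ∑ x ∈ X, m x
    rw [hX'.2.2]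
    exact hle' X hX'.1
  have hUc : ∑ x ∈ (𝒳.biUnion id)ᶜ, m' x < ∑ x ∈ (𝒳.biUnion id)ᶜ, m x := by
    apply Finset.sum_lt_sum
    · intro x hx
      by_contra hlt
      rw [not_le] at hlt
      exact (Finset.mem_compl.1 hx) (hcover x hlt)
    · exact ⟨p, Finset.mem_compl.2 hpU, hp⟩
  have h3 := Finset.sum_add_sum_compl (𝒳.biUnion id) m
  have h4 := Finset.sum_add_sum_compl (𝒳.biUnion id) m'
  rw [htot] at h3
  rw [htot'] at h4
  omega

end Pool.Agent.Q123
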