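import Pool.Agent.Q123.LexAcyc
import Pool.Agent.Q123.Exch

set_option autoImplicit false

/-!
The multigraded support of `Tor` of the powers of a polymatroidal ideal.
-/

namespace Pool.Agent.Q123

open Finset Pool.Agent.H677R3.EdgeReg

variable {n : ℕ}

/-- an exponent as an integer vector -/
def toZ (b : Fin n →₀ ℕ) : Fin n → ℤ := fun i => (b i : ℤ)

theorem toZ_injective : Function.Injective (toZ : (Fin n →₀ ℕ) → (Fin n → ℤ)) := by
  intro a b h
  ext i
  have := congrFun h i
  simpa [toZ] using this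

theorem toZ_add (a b : Fin n →₀ ℕ) : toZ (a + b) = toZ a + toZ b := by
  ext i; simp [toZ]

theorem toZ_ind (T : Finset (Fin n)) : toZ (ind T) = ivec T := by
  ext i
  simp only [toZ, ivec, ind_apply]
  split_ifs <;> simp

theorem toZ_exchange {b : Fin n →₀ ℕ} {p q : Fin n} (hp : 0 < b p) :
    toZ (b - Finsupp.single p 1 + Finsupp.single q 1) =
      toZ b - Pi.single p 1 + Pi.single q 1 := by
  ext i
  simp only [toZ, Finsupp.add_apply, Finsupp.tsub_apply, Finsupp.single_apply, Pi.add_apply,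
    Pi.sub_apply, Pi.single_apply]
  by_cases h1 : p = i
  · subst h1
    by_cases h2 : q = p
    · subst h2; simp; omega
    · simp [h2, Ne.symm h2]; omega
  · by_cases h2 : q = i
    · subst h2; simp [h1, Ne.symm h1]
    · simp [h1, h2, Ne.symm h1, Ne.symm h2]

theorem toZ_sum (b : Fin n →₀ ℕ) : ∑ i, toZ b i = (b.degree : ℤ) := by
  rw [Finsupp.degree_eq_sum]
  simp [toZ]

theorem NExch.exch {B : Set (Fin n →₀ ℕ)} (hB : NExch B) : Exch (toZ '' B) := by
  rintro _ ⟨u, hu, rfl⟩ _ ⟨v, hv, rfl⟩ p hp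
  have hp' : v p < u p := by simpa [toZ] using hp
  obtain ⟨q, hq, hm⟩ := hB u hu v hv p hp'
  refine ⟨q, by simpa [toZ] using hq, _, hm, toZ_exchange (by omega)⟩

/-- the `k`-fold sums of exponents -/
def nsum (B : Set (Fin n →₀ ℕ)) (k : ℕ) : Set (Fin n →₀ ℕ) :=
  {b | ∃ u : Fin k → (Fin n →₀ ℕ), (∀ s, u s ∈ B) ∧ b = ∑ s, u s}

theorem toZ_image_nsum (B : Set (Fin n →₀ ℕ)) (k : ℕ) : toZ '' nsum B k = msum (toZ '' B) k := by
  have hsum : ∀ u : Fin k → (Fin n →₀ ℕ), toZ (∑ s, u s) = ∑ s, toZ (u s) := by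
    intro u
    ext i
    simp [toZ, Finsupp.finsetSum_apply]
  ext v
  constructor
  · rintro ⟨_, ⟨u, hu, rfl⟩, rfl⟩
    exact ⟨fun s => toZ (u s), fun s => ⟨u s, hu s, rfl⟩, hsum u⟩
  · rintro ⟨u, hu, rfl⟩
    choose w hw hwu using hu
    refine ⟨∑ s, w s, ⟨w, hw, rfl⟩, ?_⟩
    rw [hsum]
    exact Finset.sum_congr rfl fun s _ => hwu s

theorem nexch_of {B : Set (Fin n →₀ ℕ)} (hB : Exch (toZ '' B)) : NExch B := by
  intro u hu v hv p hp
  obtain ⟨q, hq, w, hw, he⟩ := hB (toZ u) ⟨u, hu, rfl⟩ (toZ v) ⟨v, hv, rfl⟩ p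
    (by simpa [toZ] using hp)
  refine ⟨q, by simpa [toZ] using hq, ?_⟩
  rw [← toZ_exchange (by omega)] at he
  rwa [← toZ_injective he]

theorem nsum_exch {B : Set (Fin n →₀ ℕ)} (hB : NExch B) (k : ℕ) : NExch (nsum B k) := by
  apply nexch_of
  rw [toZ_image_nsum]
  exact msum_exch hB.exch k

theorem nsum_degree {B : Set (Fin n →₀ ℕ)} {D : ℕ} (hD : ∀ b ∈ B, b.degree = D) (k : ℕ) :
    ∀ b ∈ nsum B k, b.degree = k * D := by
  rintro _ ⟨u, hu, rfl⟩
  rw [map_sum, Finset.sum_congr rfl fun s _ => hD _ (hu s)]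
  simp

/-- the family of the sets `T` with `m - 1_T` in `B` -/
def Fam (B : Set (Fin n →₀ ℕ)) (m : Fin n →₀ ℕ) (T : Finset (Fin n)) : Prop :=
  ∃ b ∈ B, b + ind T = m

/-- it is nonempty and no element belongs to all its members -/
def GoodFam (B : Set (Fin n →₀ ℕ)) (m : Fin n →₀ ℕ) : Prop :=
  (∃ T, Fam B m T) ∧ ∀ j, ∃ T, j ∉ T ∧ Fam B m T

theorem fam_iff {B : Set (Fin n →₀ ℕ)} {m : Fin n →₀ ℕ} {T : Finset (Fin n)} :
    Fam B m T ↔ toZ m - ivec T ∈ toZ '' B := by
  constructor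
  · rintro ⟨b, hb, rfl⟩
    exact ⟨b, hb, by rw [toZ_add, toZ_ind]; abel⟩
  · rintro ⟨b, hb, he⟩
    refine ⟨b, hb, toZ_injective ?_⟩
    rw [toZ_add, toZ_ind, he]
    abel

variable {k : Type*} [Field k]

theorem kk_iff {B : Set (Fin n →₀ ℕ)} {m : Fin n →₀ ℕ} {T : Finset (Fin n)} :
    KK (fun c => ∃ b ∈ B, ⇑b ≤ c) m T ↔ QQ B m T := by
  constructor
  · rintro ⟨h1, b, hb, h2⟩
    refine ⟨b, hb, fun i => ?_⟩
    have := h2 i
    have := h1 i
    simp only [Finsupp.add_apply, Finsupp.tsub_apply] at *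
    omega
  · rintro ⟨b, hb, h⟩
    refine ⟨le_trans (by simp) h, b, hb, fun i => ?_⟩
    have := h i
    simp only [Finsupp.add_apply, Finsupp.tsub_apply] at *
    omega

/-- sets in the complex with the maximal possible number of elements -/
theorem fam_of_qq {B : Set (Fin n →₀ ℕ)} {D : ℕ} (hD : ∀ b ∈ B, b.degree = D) {m : Fin n →₀ ℕ}
    {T : Finset (Fin n)} (hm : m.degree = D + T.card) (h : QQ B m T) : Fam B m T := by
  obtain ⟨b, hb, hle⟩ := h
  refine ⟨b, hb, ?_⟩
  have h1 : (m - (b + ind T)) + (b + ind T) = m := tsub_add_cancel_of_le hle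
  have h2 := congrArg Finsupp.degree h1
  rw [map_add, map_add, hD b hb, degree_ind, hm] at h2
  have h3 : (m - (b + ind T)).degree = 0 := by omega
  rw [(Finsupp.degree_eq_zero_iff _).1 h3, zero_add] at h1
  exact h1

theorem qq_card {B : Set (Fin n →₀ ℕ)} {D : ℕ} (hD : ∀ b ∈ B, b.degree = D) {m : Fin n →₀ ℕ}
    {T : Finset (Fin n)} (h : QQ B m T) : D + T.card ≤ m.degree := by
  obtain ⟨b, hb, hle⟩ := h
  have := Finsupp.degree_mono hle
  rwa [map_add, hD b hb, degree_ind] at this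

theorem fam_card {B : Set (Fin n →₀ ℕ)} {D : ℕ} (hD : ∀ b ∈ B, b.degree = D) {m : Fin n →₀ ℕ}
    {T : Finset (Fin n)} (h : Fam B m T) : m.degree = D + T.card := by
  obtain ⟨b, hb, rfl⟩ := h
  rw [map_add, hD b hb, degree_ind]

theorem cd_ne_zero {a : Finset (Fin n) → k} {T : Finset (Fin n)} (h : cd a T ≠ 0) :
    ∃ j, j ∉ T ∧ a (insert j T) ≠ 0 := by
  unfold cd at h
  obtain ⟨j, hj, hne⟩ := Finset.exists_ne_zero_of_sum_ne_zero h
  exact ⟨j, by simpa using hj, fun h => hne (by rw [h, mul_zero])⟩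

/-- an acyclicity statement for a down-closed family -/
theorem exists_of_relAcyc {L : Set (Fin n →₀ ℕ)} {m : Fin n →₀ ℕ} {l : ℕ}
    (h : RelAcyc k (QQ L m) l) {a : Finset (Fin n) → k} (ha : ∀ T, a T ≠ 0 → QQ L m T ∧ T.card = l)
    (hc : ∀ T, cd a T = 0) :
    ∃ c : Finset (Fin n) → k, (∀ T, c T ≠ 0 → QQ L m T ∧ T.card = l + 1) ∧ ∀ T, cd c T = a T := by
  obtain ⟨c, hc1, hc2⟩ := h a ha (fun T _ => hc T)
  refine ⟨c, hc1, fun T => ?_⟩
  by_cases hT : QQ L m T
  · exact hc2 T hT
  · have h1 : a T = 0 := by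
      by_contra h
      exact hT (ha T h).1
    rw [h1]
    by_contra h
    obtain ⟨j, -, hj⟩ := cd_ne_zero h
    exact hT (QQ.down (Finset.subset_insert _ _) (hc1 _ hj).1)

/-- a swap in the family of bases -/
theorem Exch.exists_swap {ι : Type*} [DecidableEq ι] [Fintype ι] {B : Set (ι → ℤ)} (hB : Exch B)
    {d : ℤ} (hd : ∀ w ∈ B, ∑ i, w i = d) {a : ι → ℤ} {F F' : Finset ι} {j : ι} (hj : j ∈ F)
    (hF : a - ivec F ∈ B) (hjF' : j ∉ F') (hF' : a - ivec F' ∈ B) :
    ∃ l, l ∉ F ∧ a - ivec F + Pi.single j 1 - Pi.single l 1 ∈ B := by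
  classical
  by_contra hne
  push Not at hne
  let T : Finset ι := Finset.univ.filter fun x => a - ivec F + Pi.single j 1 - Pi.single x 1 ∈ B
  have hTF : T ⊆ F := by
    intro x hx
    by_contra hxF
    exact hne x hxF (Finset.mem_filter.1 hx).2
  have hjT : j ∈ T := Finset.mem_filter.2 ⟨Finset.mem_univ _, by simpa using hF⟩
  have h1 : ∑ i ∈ T, (a - ivec F' : ι → ℤ) i ≤ ∑ i ∈ T, (a - ivec F : ι → ℤ) i := by
    refine hB.closed hd T hF' _ hF ?_
    intro x hx y hy hmem
    apply hy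
    exact Finset.mem_filter.2 ⟨Finset.mem_univ _, hB.trans (Finset.mem_filter.1 hx).2 hmem⟩
  simp only [Pi.sub_apply, Finset.sum_sub_distrib] at h1
  have h2 : ∑ i ∈ T, ivec F i = T.card := by
    rw [Finset.sum_congr rfl (g := fun _ => (1 : ℤ))]
    · simp
    · intro i hi
      simp [ivec, hTF hi]
  have h3 : ∑ i ∈ T, ivec F' i < T.card := by
    have : ∑ i ∈ T, ivec F' i = (T.filter (· ∈ F')).card := by
      simp only [ivec]
      rw [Finset.sum_ite]
      simp
    rw [this]
    have : (T.filter (· ∈ F')).card < T.card := by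
      apply Finset.card_lt_card
      refine ⟨Finset.filter_subset _ _, fun hle => ?_⟩
      exact hjF' (Finset.mem_filter.1 (hle hjT)).2
    exact_mod_cast this
  omega

/-- **The multigraded support of Tor.** -/
theorem combNe_iff {B : Set (Fin n →₀ ℕ)} (hB : NExch B) {D : ℕ} (hD : ∀ b ∈ B, b.degree = D)
    (i : ℕ) (m : Fin n →₀ ℕ) :
    CombNe k (fun c => ∃ b ∈ B, ⇑b ≤ c) i m ↔ m.degree = D + i ∧ GoodFam B m := by
  classical
  constructor
  · rintro ⟨a, ha, hcyc, hne⟩
    have ha' : ∀ T, a T ≠ 0 → QQ B m T ∧ T.card = i := fun T h =>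
      ⟨kk_iff.1 (ha T h).1, (ha T h).2⟩
    have hdeg : m.degree = D + i := by
      by_contra hdeg
      obtain ⟨c, hc1, hc2⟩ := exists_of_relAcyc
        (relAcyc_lex (k := k) hB le_rfl (fun _ _ b' hb' _ => hb') hD hdeg) ha' hcyc
      exact hne ⟨c, fun T h => ⟨kk_iff.2 (hc1 T h).1, (hc1 T h).2⟩, hc2⟩
    obtain ⟨T0, hT0⟩ : ∃ T, a T ≠ 0 := by
      by_contra h
      push Not at h
      apply hne
      refine ⟨fun _ => 0, fun T hT => absurd rfl hT, fun T => ?_⟩
      rw [cd_zero, h]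
    have hfam : ∀ T, a T ≠ 0 → Fam B m T := fun T hT =>
      fam_of_qq hD (by rw [(ha' T hT).2]; exact hdeg) (ha' T hT).1
    refine ⟨hdeg, ⟨T0, hfam T0 hT0⟩, fun j => ?_⟩
    by_contra hcol
    push Not at hcol
    have hjT : ∀ T, a T ≠ 0 → j ∈ T := by
      intro T hT
      by_contra hj
      exact hcol T hj (hfam T hT)
    have h0 := hcyc (T0.erase j)
    unfold cd at h0
    rw [Finset.sum_eq_single j] at h0
    · rw [Finset.insert_erase (hjT T0 hT0)] at h0
      have := sg_mul_self (k := k) j (T0.erase j)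
      rcases mul_eq_zero.1 h0 with h | h
      · rw [h, zero_mul] at this
        exact zero_ne_one this
      · exact hT0 h
    · intro l hl hlj
      by_contra hne0
      have h1 : a (insert l (T0.erase j)) ≠ 0 := fun h => hne0 (by rw [h, mul_zero])
      have h2 := hjT _ h1
      simp [Ne.symm hlj] at h2
    · intro h
      exfalso
      apply h
      simp
  · rintro ⟨hdeg, ⟨T1, hT1⟩, hcol⟩
    have hcard : ∀ T, Fam B m T → T.card = i := by
      intro T hT
      have := fam_card hD hT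
      omega
    -- a member with the lexicographically greatest generator
    obtain ⟨F, hF, hmax⟩ := Finset.exists_max_image
      (Finset.univ.filter fun T => Fam B m T) (fun T => toLex (m - ind T))
      ⟨T1, Finset.mem_filter.2 ⟨Finset.mem_univ _, hT1⟩⟩
    have hFfam : Fam B m F := (Finset.mem_filter.1 hF).2
    obtain ⟨b, hb, hbm⟩ := hFfam
    have hbF : m - ind F = b := by rw [← hbm]; simp
    -- the lower generators
    set L : Set (Fin n →₀ ℕ) := {b' | b' ∈ B ∧ toLex b' < toLex b} with hL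
    have hLB : L ⊆ B := fun b' h => h.1
    have hFL : ¬ QQ L m F := by
      rintro ⟨b', hb', hle⟩
      rw [← hbm] at hle
      have hle' : b' ≤ b := by
        intro x
        have := hle x
        simp only [Finsupp.add_apply] at this
        omega
      have h1 : (b - b') + b' = b := tsub_add_cancel_of_le hle'
      have h2 := congrArg Finsupp.degree h1
      rw [map_add, hD b hb, hD b' hb'.1] at h2
      have h3 : (b - b').degree = 0 := by omega
      rw [(Finsupp.degree_eq_zero_iff _).1 h3, zero_add] at h1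
      rw [h1] at hb'
      exact lt_irrefl _ hb'.2
    have herase : ∀ v ∈ F, QQ L m (F.erase v) := by
      intro v hv
      obtain ⟨T, hvT, hT⟩ := hcol v
      obtain ⟨q, hq, hm⟩ := hB.exch.exists_swap (d := D) (by
        rintro _ ⟨w, hw, rfl⟩
        rw [toZ_sum, hD w hw]) hv (fam_iff.1 ⟨b, hb, hbm⟩) hvT (fam_iff.1 hT)
      have hF' : Fam B m (insert q (F.erase v)) := by
        rw [fam_iff, ivec_exchange hv hq]
        rwa [show toZ m - (ivec F - Pi.single v 1 + Pi.single q 1) =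
          toZ m - ivec F + Pi.single v 1 - Pi.single q 1 by abel]
      have hle := hmax _ (Finset.mem_filter.2 ⟨Finset.mem_univ _, hF'⟩)
      obtain ⟨b', hb', hbm'⟩ := hF'
      have hbF' : m - ind (insert q (F.erase v)) = b' := by rw [← hbm']; simp
      simp only [hbF, hbF'] at hle
      have hne : b' ≠ b := by
        rintro rfl
        have h1 : ind F = ind (insert q (F.erase v)) := add_left_cancel (hbm.trans hbm'.symm)
        have h2 := DFunLike.congr_fun h1 q
        rw [ind_apply, ind_apply, if_neg hq, if_pos (Finset.mem_insert_self _ _)] at h2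
        exact zero_ne_one h2
      refine ⟨b', ⟨hb', lt_of_le_of_ne hle (fun h => hne h)⟩, ?_⟩
      rw [← hbm']
      exact add_le_add le_rfl (ind_mono (Finset.subset_insert _ _))
    -- the chain
    let δ : Finset (Fin n) → k := fun T => if T = F then 1 else 0
    have hδ : ∀ T, cd δ T ≠ 0 → QQ L m T ∧ T.card + 1 = i := by
      intro T hT
      obtain ⟨j, hj, hne⟩ := cd_ne_zero hT
      have hTF : insert j T = F := by
        by_contra h
        exact hne (by simp only [δ]; rw [if_neg h])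
      have hjF : j ∈ F := by rw [← hTF]; exact Finset.mem_insert_self _ _
      have hT' : T = F.erase j := by rw [← hTF, Finset.erase_insert hj]
      refine ⟨hT' ▸ herase j hjF, ?_⟩
      rw [← hcard F ⟨b, hb, hbm⟩, ← hTF, Finset.card_insert_of_notMem hj]
    obtain ⟨c, hc1, hc2⟩ : ∃ c : Finset (Fin n) → k,
        (∀ T, c T ≠ 0 → QQ L m T ∧ T.card = i) ∧ ∀ T, cd c T = cd δ T := by
      by_cases hi : i = 0
      · refine ⟨fun _ => 0, fun T h => absurd rfl h, fun T => ?_⟩
        rw [cd_zero]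
        by_contra h
        have := (hδ T (Ne.symm h)).2
        omega
      · obtain ⟨l, rfl⟩ : ∃ l, i = l + 1 := ⟨i - 1, by omega⟩
        exact exists_of_relAcyc (relAcyc_lex (k := k) hB hLB
          (fun b1 hb1 b2 hb2 hlt => ⟨hb2, hlt.trans hb1.2⟩) hD (by omega))
          (fun T hT => ⟨(hδ T hT).1, by have := (hδ T hT).2; omega⟩) (fun T => cd_cd δ T)
    refine ⟨fun T => δ T - c T, ?_, ?_, ?_⟩
    · intro T hT
      by_cases hTF : T = F
      · subst hTF
        exact ⟨kk_iff.2 ⟨b, hb, hbm.le⟩, hcard T ⟨b, hb, hbm⟩⟩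
      · have h1 : c T ≠ 0 := by
          intro h
          apply hT
          simp only [δ, if_neg hTF, h, sub_zero]
        obtain ⟨⟨b', hb', hle⟩, h3⟩ := hc1 T h1
        exact ⟨kk_iff.2 ⟨b', hb'.1, hle⟩, h3⟩
    · intro T
      rw [cd_sub, hc2, sub_self]
    · rintro ⟨g, hg1, hg2⟩
      have hg0 : g = fun _ => 0 := by
        funext T
        by_contra h
        have h1 := hg1 T h
        have h2 := qq_card hD (kk_iff.1 h1.1)
        omega
      have := hg2 F
      rw [hg0, cd_zero] at this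
      have hcF : c F = 0 := by
        by_contra h
        exact hFL (hc1 F h).1
      simp [δ, hcF] at this

end Pool.Agent.Q123
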