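import Pool.Agent.Q123.MTor

set_option autoImplicit false

/-!
Vanishing of the multigraded Koszul homology of ideals with the exchange property off the linear
strand, and the existence of classes on the linear strand.
-/

namespace Pool.Agent.Q123

open Finset Pool.Agent.H677R3.EdgeReg

variable {n : ℕ}

/-- the exchange property of a set of exponents -/
def NExch (B : Set (Fin n →₀ ℕ)) : Prop :=
  ∀ u ∈ B, ∀ v ∈ B, ∀ p, v p < u p →
    ∃ q, u q < v q ∧ u - Finsupp.single p 1 + Finsupp.single q 1 ∈ B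

/-- the complex of the monomials of multidegree `m` in the ideal generated by `L` -/
def QQ (L : Set (Fin n →₀ ℕ)) (m : Fin n →₀ ℕ) (T : Finset (Fin n)) : Prop :=
  ∃ b ∈ L, b + ind T ≤ m

theorem ind_mono {T T' : Finset (Fin n)} (h : T ⊆ T') : ind T ≤ ind T' := by
  intro v
  rw [ind_apply, ind_apply]
  by_cases hv : v ∈ T
  · rw [if_pos hv, if_pos (h hv)]
  · rw [if_neg hv]; exact Nat.zero_le _

theorem QQ.down {L : Set (Fin n →₀ ℕ)} {m : Fin n →₀ ℕ} {T T' : Finset (Fin n)} (h : T ⊆ T')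
    (hT : QQ L m T') : QQ L m T := by
  obtain ⟨b, hb, hle⟩ := hT
  exact ⟨b, hb, (add_le_add le_rfl (ind_mono h)).trans hle⟩

theorem lex_lt_of {b : Fin n →₀ ℕ} {p q : Fin n} (hpq : p < q) (hp : 0 < b p) :
    toLex (b - Finsupp.single p 1 + Finsupp.single q 1) < toLex b := by
  rw [Finsupp.Lex.lt_iff]
  refine ⟨p, fun j hj => ?_, ?_⟩
  · have h1 : p ≠ j := hj.ne'
    have h2 : q ≠ j := (hj.trans hpq).ne'
    simp [h1, h2]
  · have h2 : q ≠ p := hpq.ne'
    simp [h2]
    omega

/-- the linear quotients property -/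
theorem exists_lower {B : Set (Fin n →₀ ℕ)} (hB : NExch B) {b b' : Fin n →₀ ℕ} (hb : b ∈ B)
    (hb' : b' ∈ B) (hlt : toLex b' < toLex b) :
    ∃ p q, p ≠ q ∧ 0 < b p ∧ b q < b' q ∧ b - Finsupp.single p 1 + Finsupp.single q 1 ∈ B ∧
      toLex (b - Finsupp.single p 1 + Finsupp.single q 1) < toLex b := by
  rw [Finsupp.Lex.lt_iff] at hlt
  obtain ⟨p, hp1, hp2⟩ := hlt
  simp only [ofLex_toLex] at hp1 hp2
  obtain ⟨q, hq, hm⟩ := hB b hb b' hb' p hp2
  have hpq : p < q := by
    rcases lt_trichotomy p q with h | h | h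
    · exact h
    · subst h; omega
    · have := hp1 q h; omega
  exact ⟨p, q, hpq.ne, by omega, hq, hm, lex_lt_of hpq (by omega)⟩

variable {k : Type*} [Field k]

/-- the piece of the filtration -/
def Piece (L : Set (Fin n →₀ ℕ)) (m b : Fin n →₀ ℕ) (T : Finset (Fin n)) : Prop :=
  b + ind T ≤ m ∧ ∀ b' ∈ L, toLex b' < toLex b → ¬ (b' + ind T ≤ m)

theorem degree_ind (T : Finset (Fin n)) : (ind T).degree = T.card := by
  rw [Finsupp.degree_eq_sum]
  exact sum_ind T

/-- the pieces are acyclic off the linear strand -/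
theorem piece_acyc {B L : Set (Fin n →₀ ℕ)} (hB : NExch B) (hLB : L ⊆ B)
    (hL : ∀ b ∈ L, ∀ b' ∈ B, toLex b' < toLex b → b' ∈ L) {D : ℕ} (hD : ∀ b ∈ B, b.degree = D)
    {m b : Fin n →₀ ℕ} (hb : b ∈ L) {l : ℕ} (hl : m.degree ≠ D + l) :
    RelAcyc k (Piece L m b) l := by
  classical
  by_cases hv : ∃ v, b v + 1 ≤ m v ∧ ∀ p, p ≠ v → 0 < b p →
      b - Finsupp.single p 1 + Finsupp.single v 1 ∈ B →
      ¬ toLex (b - Finsupp.single p 1 + Finsupp.single v 1) < toLex b
  · obtain ⟨v, hv1, hv2⟩ := hv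
    refine relAcyc_toggle _ _ v fun T hT => ⟨?_, ?_⟩
    · rintro ⟨h1, h2⟩
      refine ⟨?_, fun b' hb' hlt hle => h2 b' hb' hlt
        ((add_le_add le_rfl (ind_mono (Finset.subset_insert _ _))).trans hle)⟩
      intro x
      rw [ind_insert hT]
      have hx := h1 x
      simp only [Finsupp.add_apply] at hx ⊢
      by_cases hxv : x = v
      · subst hxv
        rw [ind_apply, if_neg hT, Finsupp.single_eq_same]
        omega
      · rw [Finsupp.single_eq_of_ne hxv]
        omega
    · rintro ⟨h1, h2⟩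
      refine ⟨(add_le_add le_rfl (ind_mono (Finset.subset_insert _ _))).trans h1, ?_⟩
      intro b' hb' hlt hle
      obtain ⟨p, q, hpq, hp, hq, hm, hlt'⟩ := exists_lower hB (hLB hb) (hLB hb') hlt
      have hqv : q ≠ v := by
        rintro rfl
        exact hv2 p hpq hp hm hlt'
      refine h2 _ (hL b hb _ hm hlt') hlt' ?_
      intro x
      have hx := h1 x
      have hx' := hle x
      rw [ind_insert hT] at hx ⊢
      simp only [Finsupp.add_apply, Finsupp.tsub_apply, Finsupp.single_apply] at hx hx' ⊢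
      by_cases hxq : x = q
      · subst hxq
        rw [if_neg hqv.symm] at hx ⊢
        rw [if_pos rfl]
        omega
      · rw [if_neg (Ne.symm hxq)]
        omega
  · push Not at hv
    apply relAcyc_of_empty
    rintro T ⟨h1, h2⟩ hTl
    apply hl
    have hm : m = b + ind T := by
      ext v
      have hle := h1 v
      simp only [Finsupp.add_apply] at hle ⊢
      by_contra hne
      obtain ⟨p, hpv, hp, hm, hlt⟩ := hv v (by omega)
      refine h2 _ (hL b hb _ hm hlt) hlt ?_
      intro x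
      have hx := h1 x
      simp only [Finsupp.add_apply, Finsupp.tsub_apply, Finsupp.single_apply] at hx ⊢
      by_cases hxv : x = v
      · subst hxv
        rw [if_pos rfl]
        omega
      · rw [if_neg (Ne.symm hxv)]
        omega
    rw [hm, map_add, hD b (hLB hb), degree_ind, hTl]

/-- the finite set of the relevant generators -/
noncomputable def rel (L : Set (Fin n →₀ ℕ)) (m : Fin n →₀ ℕ) (T : Finset (Fin n)) :
    Finset (Lex (Fin n →₀ ℕ)) :=
  open Classical in
  ((Finset.Iic m).filter (fun b => b ∈ L ∧ b + ind T ≤ m)).image toLex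

theorem mem_rel {L : Set (Fin n →₀ ℕ)} {m : Fin n →₀ ℕ} {T : Finset (Fin n)} {b : Fin n →₀ ℕ} :
    toLex b ∈ rel L m T ↔ b ∈ L ∧ b + ind T ≤ m := by
  classical
  unfold rel
  rw [Finset.mem_image]
  constructor
  · rintro ⟨b', hb', he⟩
    have : b' = b := he
    subst this
    exact (Finset.mem_filter.1 hb').2
  · rintro ⟨h1, h2⟩
    exact ⟨b, Finset.mem_filter.2 ⟨Finset.mem_Iic.2 (le_trans (by simp) h2), h1, h2⟩, rfl⟩

/-- the lexicographically least relevant generator -/
noncomputable def lexMin (L : Set (Fin n →₀ ℕ)) (m : Fin n →₀ ℕ) (T : Finset (Fin n)) :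
    (Lex (Fin n →₀ ℕ))ᵒᵈ :=
  open Classical in
  if h : (rel L m T).Nonempty then OrderDual.toDual ((rel L m T).min' h)
    else OrderDual.toDual (toLex 0)

theorem rel_nonempty {L : Set (Fin n →₀ ℕ)} {m : Fin n →₀ ℕ} {T : Finset (Fin n)}
    (h : QQ L m T) : (rel L m T).Nonempty := by
  obtain ⟨b, hb, hle⟩ := h
  exact ⟨toLex b, mem_rel.2 ⟨hb, hle⟩⟩

theorem piece_iff {L : Set (Fin n →₀ ℕ)} {m b : Fin n →₀ ℕ} (T : Finset (Fin n)) :
    (QQ L m T ∧ lexMin L m T = OrderDual.toDual (toLex b)) ↔ (b ∈ L ∧ Piece L m b T) := by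
  constructor
  · rintro ⟨hQ, hmin⟩
    have hne := rel_nonempty hQ
    unfold lexMin at hmin
    rw [dif_pos hne] at hmin
    have hmin' : (rel L m T).min' hne = toLex b := OrderDual.toDual.injective hmin
    have hmem := Finset.min'_mem _ hne
    rw [hmin', mem_rel] at hmem
    refine ⟨hmem.1, hmem.2, fun b' hb' hlt hle => ?_⟩
    have := Finset.min'_le (rel L m T) _ (mem_rel.2 ⟨hb', hle⟩)
    rw [hmin'] at this
    exact absurd hlt (not_lt.2 this)
  · rintro ⟨hb, h1, h2⟩
    have hQ : QQ L m T := ⟨b, hb, h1⟩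
    have hne := rel_nonempty hQ
    refine ⟨hQ, ?_⟩
    unfold lexMin
    rw [dif_pos hne]
    congr 1
    apply le_antisymm
    · exact Finset.min'_le _ _ (mem_rel.2 ⟨hb, h1⟩)
    · have hmem := Finset.min'_mem _ hne
      by_contra hlt
      rw [not_le] at hlt
      have h3 : (ofLex ((rel L m T).min' hne)) ∈ L ∧ ofLex ((rel L m T).min' hne) + ind T ≤ m := by
        rw [← mem_rel]
        exact hmem
      exact h2 _ h3.1 hlt h3.2

/-- **Vanishing off the linear strand.** -/
theorem relAcyc_lex {B L : Set (Fin n →₀ ℕ)} (hB : NExch B) (hLB : L ⊆ B)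
    (hL : ∀ b ∈ L, ∀ b' ∈ B, toLex b' < toLex b → b' ∈ L) {D : ℕ} (hD : ∀ b ∈ B, b.degree = D)
    {m : Fin n →₀ ℕ} {l : ℕ} (hl : m.degree ≠ D + l) :
    RelAcyc k (QQ L m) l := by
  apply relAcyc_filtration (QQ L m) l (lexMin L m)
  · intro T j _ _ i _ h
    exact QQ.down (Finset.subset_insert _ _) h
  · intro T j _ hQ hQ'
    have hne := rel_nonempty hQ
    have hne' := rel_nonempty hQ'
    unfold lexMin
    rw [dif_pos hne, dif_pos hne', OrderDual.toDual_le_toDual]
    apply Finset.min'_subset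
    intro b hb
    have hb' : toLex (ofLex b) ∈ rel L m (insert j T) := hb
    rw [mem_rel] at hb'
    show toLex (ofLex b) ∈ _
    rw [mem_rel]
    exact ⟨hb'.1, (add_le_add le_rfl (ind_mono (Finset.subset_insert _ _))).trans hb'.2⟩
  · intro t
    have ht : t = OrderDual.toDual (toLex (ofLex (OrderDual.ofDual t))) := rfl
    rw [ht]
    generalize ofLex (OrderDual.ofDual t) = b
    by_cases hb : b ∈ L
    · have h := piece_acyc (k := k) hB hLB hL hD hb hl
      have he : (fun T => QQ L m T ∧ lexMin L m T = OrderDual.toDual (toLex b)) = Piece L m b := by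
        funext T
        rw [eq_iff_iff, piece_iff]
        exact ⟨fun h => h.2, fun h => ⟨hb, h⟩⟩
      rw [he]
      exact h
    · apply relAcyc_of_empty
      intro T hT _
      rw [piece_iff] at hT
      exact hb hT.1

end Pool.Agent.Q123
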