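import Pool.Agent.Q123.VNum

set_option autoImplicit false

/-!
Colon ideals of monomials, edge ideals.
-/

namespace Pool.Agent.Q123

open MvPolynomial

variable {σ : Type*} {K : Type*} [Field K]

/-- if every variable multiplies `f` into `J` and `f` is not in `J` then `(J : f)` is the ideal of
all the variables -/
theorem mem_span_X_iff_of {J : Ideal (MvPolynomial σ K)} {f : MvPolynomial σ K}
    (hf : f ∉ J) (h : ∀ i, X i * f ∈ J) (g : MvPolynomial σ K) :
    g ∈ Ideal.span (Set.range (X : σ → MvPolynomial σ K)) ↔ g * f ∈ J := by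
  have hle : Ideal.span (Set.range (X : σ → MvPolynomial σ K)) ≤ J.colon {f} := by
    rw [Ideal.span_le]
    rintro _ ⟨i, rfl⟩
    show X i ∈ J.colon {f}
    rw [Submodule.mem_colon_singleton]
    exact h i
  constructor
  · intro hg
    have := hle hg
    rw [Submodule.mem_colon_singleton] at this
    exact this
  · intro hg
    by_contra hne
    have hmax : (Ideal.span (Set.range (X : σ → MvPolynomial σ K))).IsMaximal := by
      rw [span_range_X_eq]; exact wtIdeal_one_isMaximal
    have h1 := (Ideal.isMaximal_iff.1 hmax).2 (J.colon {f}) g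
    have h2 : (1 : MvPolynomial σ K) ∈ J.colon {f} := by
      apply h1 hle hne
      rw [Submodule.mem_colon_singleton]; exact hg
    rw [Submodule.mem_colon_singleton, one_smul] at h2
    exact hf h2

/-- the ideal generated by the variables in a set -/
theorem mem_span_X_image_iff {W : Set σ} {f : MvPolynomial σ K} :
    f ∈ Ideal.span (X '' W : Set (MvPolynomial σ K)) ↔ ∀ u ∈ f.support, ∃ i ∈ W, u i ≠ 0 :=
  mem_ideal_span_X_image

/-- the ideal generated by a set of variables is prime -/
theorem isPrime_span_X_image [Finite σ] (W : Set σ) :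
    (Ideal.span (X '' W : Set (MvPolynomial σ K))).IsPrime := by
  classical
  have h : Ideal.span (X '' W : Set (MvPolynomial σ K)) =
      wtIdeal K (fun i => if i ∈ W then 1 else 0) 1 := by
    have := Fintype.ofFinite σ
    ext f
    rw [mem_span_X_image_iff, mem_wtIdeal]
    refine forall₂_congr fun u _ => ?_
    rw [Finsupp.weight_apply, Finsupp.sum_fintype _ _ (by simp)]
    constructor
    · rintro ⟨i, hi, hne⟩
      have h1 := Finset.single_le_sum (f := fun i => u i • (if i ∈ W then 1 else 0 : ℕ))
        (s := Finset.univ) (fun _ _ => Nat.zero_le _) (Finset.mem_univ i)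
      simp only [if_pos hi, smul_eq_mul, mul_one] at h1
      simp only [smul_eq_mul]
      omega
    · intro h1
      by_contra hne
      push Not at hne
      rw [Finset.sum_eq_zero] at h1
      · omega
      · intro i _
        by_cases hi : i ∈ W
        · simp [hne i hi]
        · simp [hi]
  rw [h]
  exact wtIdeal_one_isPrime _

/-- the edge ideal of a graph, generated by the products `X u X v` over the edges `uv` -/
noncomputable def edgeIdeal (K : Type*) [Field K] (G : SimpleGraph σ) :
    Ideal (MvPolynomial σ K) :=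
  Ideal.span {f | ∃ u v, G.Adj u v ∧ f = X u * X v}

theorem mem_edgeIdeal (G : SimpleGraph σ) {f : MvPolynomial σ K} :
    f ∈ edgeIdeal K G ↔ ∀ u ∈ f.support, ∃ a b, G.Adj a b ∧ u a ≠ 0 ∧ u b ≠ 0 := by
  classical
  have h : edgeIdeal K G = Ideal.span ((fun s => monomial s (1 : K)) ''
      {s | ∃ a b, G.Adj a b ∧ s = Finsupp.single a 1 + Finsupp.single b 1}) := by
    unfold edgeIdeal
    congr 1
    ext f
    constructor
    · rintro ⟨a, b, hab, rfl⟩
      refine ⟨_, ⟨a, b, hab, rfl⟩, ?_⟩
      simp only [X, monomial_mul, mul_one]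
    · rintro ⟨_, ⟨a, b, hab, rfl⟩, rfl⟩
      refine ⟨a, b, hab, ?_⟩
      simp only [X, monomial_mul, mul_one]
  rw [h, mem_ideal_span_monomial_image]
  refine forall₂_congr fun u _ => ?_
  constructor
  · rintro ⟨s, ⟨a, b, hab, rfl⟩, hle⟩
    refine ⟨a, b, hab, ?_, ?_⟩
    · have := hle a
      simp at this
      omega
    · have := hle b
      simp at this
      omega
  · rintro ⟨a, b, hab, ha, hb⟩
    refine ⟨_, ⟨a, b, hab, rfl⟩, ?_⟩
    intro j
    have hne := hab.ne
    by_cases hj : j = a
    · subst hj
      simp [Finsupp.single_apply, hne.symm]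
      omega
    · by_cases hj' : j = b
      · subst hj'
        simp [Finsupp.single_apply, hne]
        omega
      · simp [Finsupp.single_apply, Ne.symm hj, Ne.symm hj']

/-- the colon of an edge ideal by a monomial: if no edge lies in the support of `s` and every edge
meets the set `N` of the vertices with a neighbour in the support of `s`, then `(I : X^s)` is the
ideal generated by the variables of `N` -/
theorem mem_span_nbrs_iff (G : SimpleGraph σ) (s : σ →₀ ℕ)
    (h1 : ∀ a b, G.Adj a b → s a = 0 ∨ s b = 0)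
    (h2 : ∀ a b, G.Adj a b → (∃ c, G.Adj a c ∧ s c ≠ 0) ∨ (∃ c, G.Adj b c ∧ s c ≠ 0))
    (g : MvPolynomial σ K) :
    g ∈ Ideal.span (X '' {w | ∃ c, G.Adj w c ∧ s c ≠ 0} : Set (MvPolynomial σ K)) ↔
      g * monomial s 1 ∈ edgeIdeal K G := by
  classical
  rw [mem_span_X_image_iff, mem_edgeIdeal]
  constructor
  · intro h u hu
    obtain ⟨v, hv, w, hw, rfl⟩ := Finset.mem_add.1 (support_mul _ _ hu)
    rw [support_monomial_one, Finset.mem_singleton] at hw
    subst hw
    obtain ⟨i, ⟨c, hc, hsc⟩, hi⟩ := h v hv
    refine ⟨i, c, hc, ?_, ?_⟩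
    · simp; omega
    · simp; omega
  · intro h u hu
    have hu' : u + s ∈ (g * monomial s 1).support := by
      rw [mem_support_iff, coeff_mul_monomial, mul_one]
      exact mem_support_iff.1 hu
    obtain ⟨a, b, hab, ha, hb⟩ := h _ hu'
    have key : ∀ a, (∃ c, G.Adj a c ∧ s c ≠ 0) → (u + s) a ≠ 0 →
        ∃ i ∈ {w | ∃ c, G.Adj w c ∧ s c ≠ 0}, u i ≠ 0 := by
      rintro a ⟨c, hac, hc⟩ ha
      refine ⟨a, ⟨c, hac, hc⟩, ?_⟩
      rcases h1 a c hac with h0 | h0
      · simpa [h0] using ha
      · exact absurd h0 hc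
    rcases h2 a b hab with h | h
    · exact key a h ha
    · exact key b h hb

end Pool.Agent.Q123
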