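import Pool.Agent.H677R3.RegComb
import Pool.Agent.Q123.VNum2

set_option autoImplicit false

/-!
Linear quotients of squarefree monomial ideals generated in one degree: cycles in the lowest
dimension bound.
-/

namespace Pool.Agent.Q123

open Finset Pool.Agent.H677R3.EdgeReg

variable {n : ℕ} {k : Type*} [Field k]

theorem cd_ne_zero' {a : Finset (Fin n) → k} {T : Finset (Fin n)} (h : cd a T ≠ 0) :
    ∃ j, j ∉ T ∧ a (insert j T) ≠ 0 := by
  unfold cd at h
  obtain ⟨j, hj, hne⟩ := Finset.exists_ne_zero_of_sum_ne_zero h
  exact ⟨j, by simpa using hj, fun h => hne (by rw [h, mul_zero])⟩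

/-- the combinatorial form of linear quotients -/
def CombLQ {r : ℕ} (S : Fin r → Finset (Fin n)) : Prop :=
  ∀ i : Fin r, ∃ W : Set (Fin n), ∀ F : Finset (Fin n), S i ⊆ F →
    ((∃ j, j < i ∧ S j ⊆ F) ↔ ∃ w ∈ W, w ∈ F ∧ w ∉ S i)

theorem lq_bound {r s : ℕ} {S : Fin r → Finset (Fin n)} (hS : ∀ i, (S i).card = s)
    (hq : CombLQ S) (v : Fin n) (z : Finset (Fin n) → k)
    (hz : ∀ T, z T ≠ 0 → T.card = s ∧ ∀ j, ¬ S j ⊆ T) (hc : ∀ T, cd z T = 0) :
    ∃ y : Finset (Fin n) → k, (∀ T, y T ≠ 0 → T.card = s + 1 ∧ ∀ j, ¬ S j ⊆ T) ∧
      ∀ T, cd y T = z T := by
  classical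
  have key : ∀ t : ℕ, t ≤ r → ∃ y : Finset (Fin n) → k,
      (∀ T, y T ≠ 0 → T.card = s + 1 ∧ ∀ j : Fin r, (j : ℕ) < t → ¬ S j ⊆ T) ∧
      ∀ T, cd y T = z T := by
    intro t
    induction t with
    | zero =>
      intro _
      refine ⟨hv v z, fun T hT => ⟨?_, fun j hj => absurd hj (Nat.not_lt_zero _)⟩, fun T => ?_⟩
      · unfold hv at hT
        split_ifs at hT with hvT
        · have h1 : z (T.erase v) ≠ 0 := fun h => hT (by rw [h, mul_zero])
          have h2 := (hz _ h1).1
          rw [Finset.card_erase_of_mem hvT] at h2
          have : 0 < T.card := Finset.card_pos.2 ⟨v, hvT⟩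
          omega
        · exact absurd rfl hT
      · have h5 := homotopy v z T
        have h6 : hv v (cd z) T = 0 := by
          unfold hv
          split_ifs
          · rw [hc, mul_zero]
          · rfl
        rw [h6, add_zero] at h5
        exact h5
    | succ t ih =>
      intro ht
      obtain ⟨y, hy1, hy2⟩ := ih (by omega)
      set i : Fin r := ⟨t, ht⟩ with hi
      obtain ⟨W, hW⟩ := hq i
      have hlt : ∀ j : Fin r, j < i ↔ (j : ℕ) < t := fun j => Iff.rfl
      have hle : ∀ j : Fin r, (j : ℕ) < t + 1 → j < i ∨ j = i := by
        intro j hj
        rcases Nat.lt_succ_iff_lt_or_eq.1 hj with h | h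
        · exact Or.inl h
        · exact Or.inr (Fin.ext h)
      by_cases hcase : ∀ w, w ∉ S i → w ∈ W
      · refine ⟨y, fun T hT => ⟨(hy1 T hT).1, fun j hj hjT => ?_⟩, hy2⟩
        rcases hle j hj with h | h
        · exact (hy1 T hT).2 j h hjT
        · subst h
          obtain ⟨w, hwT, hwS⟩ : ∃ w ∈ T, w ∉ S i := by
            by_contra hne
            push Not at hne
            have h1 := Finset.card_le_card (show T ⊆ S i from hne)
            rw [(hy1 T hT).1, hS] at h1
            omega
          obtain ⟨j', hj', hj'T⟩ := (hW T hjT).2 ⟨w, hcase w hwS, hwT, hwS⟩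
          exact (hy1 T hT).2 j' hj' hj'T
      · push Not at hcase
        obtain ⟨v0, hv0S, hv0W⟩ := hcase
        let yi : Finset (Fin n) → k := fun F => if S i ⊆ F then y F else 0
        have hyi : ∀ F, yi F ≠ 0 → S i ⊆ F ∧ y F ≠ 0 := by
          intro F hF
          simp only [yi] at hF
          split_ifs at hF with h
          · exact ⟨h, hF⟩
          · exact absurd rfl hF
        refine ⟨fun F => (y F - yi F) + hv v0 (cd yi) F, fun F hF => ?_, fun T => ?_⟩
        · beta_reduce at hF
          by_cases h0 : y F - yi F = 0
          · rw [h0, zero_add] at hF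
            unfold hv at hF
            split_ifs at hF with hv0F
            · set T := F.erase v0 with hT
              have h1 : cd yi T ≠ 0 := fun h => hF (by rw [h, mul_zero])
              obtain ⟨w, hwT, hw⟩ := cd_ne_zero' h1
              obtain ⟨hSi, hyw⟩ := hyi _ hw
              have hcard := (hy1 _ hyw).1
              rw [Finset.card_insert_of_notMem hwT] at hcard
              have hTs : T.card = s := by omega
              have hTS : ¬ S i ⊆ T := by
                intro hsub
                have hTe : S i = T := Finset.eq_of_subset_of_card_le hsub (by rw [hS, hTs])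
                apply h1
                have h2 : cd yi T = cd y T := by
                  unfold cd
                  refine Finset.sum_congr rfl fun j _ => ?_
                  simp only [yi]
                  rw [if_pos (hsub.trans (Finset.subset_insert _ _))]
                rw [h2, hy2]
                by_contra hne
                exact (hz _ hne).2 i hsub
              have hwS : w ∈ S i := by
                by_contra hwS
                apply hTS
                intro x hx
                rcases Finset.mem_insert.1 (hSi hx) with h | h
                · exact absurd (h ▸ hx) hwS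
                · exact h
              refine ⟨?_, fun j hj hjF => ?_⟩
              · have : T.card + 1 = F.card := Finset.card_erase_add_one hv0F
                omega
              · have hFU : F ⊆ insert v0 (insert w T) := by
                  intro x hx
                  by_cases hxv : x = v0
                  · exact hxv ▸ Finset.mem_insert_self _ _
                  · exact Finset.mem_insert_of_mem (Finset.mem_insert_of_mem
                      (Finset.mem_erase.2 ⟨hxv, hx⟩))
                rcases hle j hj with h | h
                · obtain ⟨w', hw'W, hw'U, hw'S⟩ := (hW (insert v0 (insert w T))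
                    (hSi.trans (Finset.subset_insert _ _))).1 ⟨j, h, hjF.trans hFU⟩
                  have hw'v : w' ≠ v0 := by rintro rfl; exact hv0W hw'W
                  have hw'T : w' ∈ insert w T := (Finset.mem_insert.1 hw'U).resolve_left hw'v
                  obtain ⟨j', hj', hj'T⟩ := (hW _ hSi).2 ⟨w', hw'W, hw'T, hw'S⟩
                  exact (hy1 _ hyw).2 j' hj' hj'T
                · subst h
                  have hwF := hjF hwS
                  have : w ≠ v0 := by rintro rfl; exact hv0S hwS
                  exact hwT (Finset.mem_erase.2 ⟨this, hwF⟩)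
            · exact absurd rfl hF
          · have h1 : ¬ S i ⊆ F := by
              intro h
              apply h0
              simp only [yi, if_pos h, sub_self]
            have h2 : y F ≠ 0 := by
              intro h
              apply h0
              simp only [yi, if_neg h1, h, sub_self]
            refine ⟨(hy1 F h2).1, fun j hj hjF => ?_⟩
            rcases hle j hj with h | h
            · exact (hy1 F h2).2 j h hjF
            · subst h; exact h1 hjF
        · rw [cd_add, cd_sub, hy2]
          have h5 := homotopy v0 (cd yi) T
          have h6 : hv v0 (cd (cd yi)) T = 0 := by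
            unfold hv
            split_ifs
            · rw [cd_cd, mul_zero]
            · rfl
          rw [h6, add_zero] at h5
          rw [h5]
          ring
  obtain ⟨y, hy1, hy2⟩ := key r le_rfl
  exact ⟨y, fun T hT => ⟨(hy1 T hT).1, fun j => (hy1 T hT).2 j j.2⟩, hy2⟩

end Pool.Agent.Q123
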