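import Mathlib

set_option autoImplicit false

/-!
Ideals with a linear resolution, and a criterion for not having one.
-/

namespace Pool.Agent.Q123

open MvPolynomial

variable {σ : Type*} {K : Type*} [Field K]

/-- `I` has a linear free resolution with generators in degree `d`: there are `r 0, r 1, …`,
forms `g a` of degree `d` generating `I` and matrices `M 0, M 1, …` of linear forms such that
`⋯ → S ^ r 2 → S ^ r 1 → S ^ r 0 → I → 0` is exact (the maps act on row vectors). -/
def HasLinearResolution (d : ℕ) (I : Ideal (MvPolynomial σ K)) : Prop :=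
  ∃ (r : ℕ → ℕ) (g : Fin (r 0) → MvPolynomial σ K)
    (M : ∀ i : ℕ, Matrix (Fin (r (i + 1))) (Fin (r i)) (MvPolynomial σ K)),
    (∀ a, (g a).IsHomogeneous d) ∧ Ideal.span (Set.range g) = I ∧
    (∀ i a b, (M i a b).IsHomogeneous 1) ∧
    (∀ v : Fin (r 0) → MvPolynomial σ K,
      ∑ a, v a * g a = 0 ↔ ∃ w : Fin (r 1) → MvPolynomial σ K, v = Matrix.vecMul w (M 0)) ∧
    (∀ i, ∀ v : Fin (r (i + 1)) → MvPolynomial σ K,
      Matrix.vecMul v (M i) = 0 ↔
        ∃ w : Fin (r (i + 2)) → MvPolynomial σ K, v = Matrix.vecMul w (M (i + 1)))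

theorem coeff_mul_of_homogeneous {d : ℕ} {α g : MvPolynomial σ K} (hg : g.IsHomogeneous d)
    (u : σ →₀ ℕ) (hu : u.degree = d) : coeff u (α * g) = coeff 0 α * coeff u g := by
  classical
  rw [coeff_mul, Finset.sum_eq_single (0, u)]
  · rintro ⟨p, q⟩ hpq hne
    rw [Finset.HasAntidiagonal.mem_antidiagonal] at hpq
    by_cases hq : coeff q g = 0
    · simp [hq]
    · exfalso
      have h1 : q.degree = d := by
        by_contra h
        exact hq (hg.coeff_eq_zero h)
      have h2 : p.degree + q.degree = d := by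
        rw [← hu, ← hpq]
        simp [map_add]
      have h3 : p.degree = 0 := by omega
      have h4 : p = 0 := (Finsupp.degree_eq_zero_iff p).1 h3
      apply hne
      subst h4
      simp at hpq
      simp [hpq]
  · intro h
    exfalso
    apply h
    rw [Finset.HasAntidiagonal.mem_antidiagonal]
    simp

/-- A monomial ideal generated by monomials of the same degree any two of which are far apart does
not have a linear resolution. -/
theorem not_hasLinearResolution (d : ℕ) (ms : Finset (σ →₀ ℕ)) (hd : ∀ m ∈ ms, m.degree = d)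
    {m1 m2 : σ →₀ ℕ} (h1 : m1 ∈ ms) (h2 : m2 ∈ ms) (h12 : m1 ≠ m2)
    (hfar : ∀ m ∈ ms, m ≠ m1 → ∀ i : σ, ¬ m ≤ m1 + Finsupp.single i 1) :
    ¬ HasLinearResolution d
      (Ideal.span ((fun u => monomial u (1 : K)) '' (ms : Set (σ →₀ ℕ)))) := by
  classical
  rintro ⟨r, g, M, hg, hspan, hM, hker, -⟩
  -- the supports of the generators
  have hgsupp : ∀ a, ∀ u ∈ (g a).support, u ∈ ms := by
    intro a u hu
    have hmem : g a ∈ Ideal.span ((fun u => monomial u (1 : K)) '' (ms : Set (σ →₀ ℕ))) := by
      rw [← hspan]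
      exact Ideal.subset_span ⟨a, rfl⟩
    rw [mem_ideal_span_monomial_image] at hmem
    obtain ⟨m, hm, hmu⟩ := hmem u hu
    have hdeg : u.degree = d := by
      by_contra h
      exact (mem_support_iff.1 hu) ((hg a).coeff_eq_zero h)
    have hmu' : m = u := by
      obtain ⟨t, rfl⟩ := exists_add_of_le hmu
      have h3 := hd m hm
      rw [map_add] at hdeg
      have h4 : t.degree = 0 := by omega
      rw [(Finsupp.degree_eq_zero_iff t).1 h4, add_zero]
    rw [← hmu']
    exact hm
  have hgsum : ∀ a, g a = ∑ m ∈ ms, monomial m (coeff m (g a)) := by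
    intro a
    conv_lhs => rw [← support_sum_monomial_coeff (g a)]
    refine Finset.sum_subset (hgsupp a) ?_
    intro u _ hu
    rw [notMem_support_iff.1 hu, monomial_zero]
  -- a linear syzygy is killed by `Φ`
  have hlin : ∀ ℓ : Fin (r 0) → MvPolynomial σ K, (∀ a, (ℓ a).IsHomogeneous 1) →
      ∑ a, ℓ a * g a = 0 → ∑ a, ℓ a * C (coeff m1 (g a)) = 0 := by
    intro ℓ hℓ hz
    have hhom : (∑ a, ℓ a * C (coeff m1 (g a))).IsHomogeneous 1 := by
      refine IsHomogeneous.sum _ _ _ fun a _ => ?_
      have := (hℓ a).mul (isHomogeneous_C σ (coeff m1 (g a)))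
      simpa using this
    ext u
    rw [coeff_zero]
    by_cases hu : u.degree = 1
    · obtain ⟨i, rfl⟩ : ∃ i, u = Finsupp.single i 1 := by
        have : u ∈ Set.range (fun a : σ => Finsupp.single a 1) := by
          rw [Finsupp.range_single_one]
          exact hu
        obtain ⟨i, hi⟩ := this
        exact ⟨i, hi.symm⟩
      have h5 : coeff (m1 + Finsupp.single i 1) (∑ a, ℓ a * g a) = 0 := by rw [hz, coeff_zero]
      rw [coeff_sum] at h5 ⊢
      rw [← h5]
      refine Finset.sum_congr rfl fun a _ => ?_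
      rw [mul_comm, coeff_C_mul, mul_comm]
      conv_rhs => rw [hgsum a, Finset.mul_sum, coeff_sum]
      rw [Finset.sum_eq_single m1]
      · rw [coeff_mul_monomial', if_pos (by simp), add_tsub_cancel_left]
      · intro m hm hne
        rw [coeff_mul_monomial', if_neg (hfar m hm hne i)]
      · intro h
        exact absurd h1 h
    · exact hhom.coeff_eq_zero hu
  -- every syzygy is killed by `Φ`
  have hall : ∀ v : Fin (r 0) → MvPolynomial σ K, ∑ a, v a * g a = 0 →
      ∑ a, v a * C (coeff m1 (g a)) = 0 := by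
    intro v hv
    obtain ⟨w, rfl⟩ := (hker v).1 hv
    have hrow : ∀ b, ∑ a, M 0 b a * C (coeff m1 (g a)) = 0 := by
      intro b
      refine hlin _ (fun a => hM 0 b a) ?_
      have := (hker (M 0 b)).2 ⟨Pi.single b 1, by rw [Matrix.single_one_vecMul]; rfl⟩
      exact this
    have : ∀ a, Matrix.vecMul w (M 0) a * C (coeff m1 (g a)) =
        ∑ b, w b * (M 0 b a * C (coeff m1 (g a))) := by
      intro a
      rw [Matrix.vecMul, dotProduct, Finset.sum_mul]
      exact Finset.sum_congr rfl fun b _ => by ring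
    simp_rw [this]
    rw [Finset.sum_comm]
    refine Finset.sum_eq_zero fun b _ => ?_
    rw [← Finset.mul_sum, hrow b, mul_zero]
  -- constant combinations giving the monomials
  have hconst : ∀ m ∈ ms, ∃ D : Fin (r 0) → K, ∑ a, C (D a) * g a = monomial m (1 : K) := by
    intro m hm
    have hmem : monomial m (1 : K) ∈ Ideal.span (Set.range g) := by
      rw [hspan]
      exact Ideal.subset_span ⟨m, hm, rfl⟩
    rw [Ideal.mem_span_range_iff_exists_fun] at hmem
    obtain ⟨α, hα⟩ := hmem
    refine ⟨fun a => coeff 0 (α a), ?_⟩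
    ext u
    by_cases hu : u.degree = d
    · rw [← hα, coeff_sum, coeff_sum]
      refine Finset.sum_congr rfl fun a _ => ?_
      rw [coeff_C_mul, coeff_mul_of_homogeneous (hg a) u hu]
    · rw [coeff_sum, coeff_monomial, if_neg]
      · refine Finset.sum_eq_zero fun a _ => ?_
        rw [coeff_C_mul, (hg a).coeff_eq_zero hu, mul_zero]
      · rintro rfl
        exact hu (hd _ hm)
  obtain ⟨D1, hD1⟩ := hconst m1 h1
  obtain ⟨D2, hD2⟩ := hconst m2 h2
  have hv := hall (fun a => monomial m2 (1 : K) * C (D1 a) - monomial m1 (1 : K) * C (D2 a)) (by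
    have : ∀ a, (monomial m2 (1 : K) * C (D1 a) - monomial m1 (1 : K) * C (D2 a)) * g a =
        monomial m2 (1 : K) * (C (D1 a) * g a) - monomial m1 (1 : K) * (C (D2 a) * g a) := by
      intro a
      ring
    simp_rw [this]
    rw [Finset.sum_sub_distrib, ← Finset.mul_sum, ← Finset.mul_sum, hD1, hD2, mul_comm, sub_self])
  have e1 : ∑ a, C (D1 a) * C (coeff m1 (g a)) = (1 : MvPolynomial σ K) := by
    have := congrArg (coeff m1) hD1
    rw [coeff_sum, coeff_monomial, if_pos rfl] at this
    simp_rw [coeff_C_mul] at this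
    simp_rw [← C_mul]
    rw [← map_sum, this, map_one]
  have e2 : ∑ a, C (D2 a) * C (coeff m1 (g a)) = (0 : MvPolynomial σ K) := by
    have := congrArg (coeff m1) hD2
    rw [coeff_sum, coeff_monomial, if_neg (Ne.symm h12)] at this
    simp_rw [coeff_C_mul] at this
    simp_rw [← C_mul]
    rw [← map_sum, this, map_zero]
  have : ∀ a, (monomial m2 (1 : K) * C (D1 a) - monomial m1 (1 : K) * C (D2 a)) *
      C (coeff m1 (g a)) = monomial m2 (1 : K) * (C (D1 a) * C (coeff m1 (g a))) -
        monomial m1 (1 : K) * (C (D2 a) * C (coeff m1 (g a))) := by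
    intro a
    ring
  simp_rw [this] at hv
  rw [Finset.sum_sub_distrib, ← Finset.mul_sum, ← Finset.mul_sum, e1, e2, mul_one, mul_zero,
    sub_zero] at hv
  exact one_ne_zero (monomial_eq_zero.1 hv)

end Pool.Agent.Q123
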