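import Pool.Agent.H677R3.RegKoszul

set_option autoImplicit false

/-!
Multigraded Koszul homology of monomial ideals, and the homological shift ideals.
-/

namespace Pool.Agent.Q123

open Finset Pool.Agent.H677R3.EdgeReg

variable {n : ℕ} {k : Type*} [Field k]

/-- `Tor_i(J, k)_a ≠ 0` for the multidegree `a`, as Koszul homology: there is an `i`-cycle of
multidegree `a` with coefficients in `J` which is not the boundary of an `(i+1)`-chain with
coefficients in `J`.  A chain assigns to every finite set `T` of variables the coefficient of the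
basis element `e_T`, whose multidegree is the indicator vector `ind T` of `T`. -/
def TorNeAt (J : Ideal (MvPolynomial (Fin n) k)) (i : ℕ) (a : Fin n →₀ ℕ) : Prop :=
  ∃ f : Finset (Fin n) → MvPolynomial (Fin n) k,
    (∀ T, f T ∈ J) ∧ (∀ T, ∀ c ∈ (f T).support, c + ind T = a) ∧ (∀ T, T.card ≠ i → f T = 0) ∧
    (∀ T, koszulD f T = 0) ∧
    ¬ ∃ g : Finset (Fin n) → MvPolynomial (Fin n) k,
      (∀ T, g T ∈ J) ∧ (∀ T, T.card ≠ i + 1 → g T = 0) ∧ ∀ T, koszulD g T = f T

/-- the `i`-th homological shift ideal of `J`, generated by the monomials `x^a` with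
`Tor_i(J, k)_a ≠ 0` -/
noncomputable def homShift (i : ℕ) (J : Ideal (MvPolynomial (Fin n) k)) :
    Ideal (MvPolynomial (Fin n) k) :=
  Ideal.span {f | ∃ a : Fin n →₀ ℕ, TorNeAt J i a ∧ f = MvPolynomial.monomial a 1}

/-- the combinatorial form of the nonvanishing -/
def CombNe (k : Type*) [Field k] (P : (Fin n → ℕ) → Prop) (i : ℕ) (b : Fin n →₀ ℕ) : Prop :=
  ∃ a : Finset (Fin n) → k, (∀ T, a T ≠ 0 → KK P b T ∧ T.card = i) ∧ (∀ T, cd a T = 0) ∧
    ¬ ∃ g : Finset (Fin n) → k, (∀ T, g T ≠ 0 → KK P b T ∧ T.card = i + 1) ∧ ∀ T, cd g T = a T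

theorem comp_monomial (b : Fin n →₀ ℕ) (a : Finset (Fin n) → k)
    (ha : ∀ T, a T ≠ 0 → ind T ≤ b) (b' : Fin n →₀ ℕ) (T : Finset (Fin n)) :
    comp (fun T => MvPolynomial.monomial (b - ind T) (a T)) b' T = if b' = b then a T else 0 := by
  classical
  unfold comp
  simp only [MvPolynomial.coeff_monomial]
  by_cases h0 : a T = 0
  · simp [h0]
  · have hle := ha T h0
    by_cases h1 : b' = b
    · subst h1; simp [hle]
    · rw [if_neg h1]
      split_ifs with h2 h3
      · exfalso
        apply h1
        rw [← tsub_add_cancel_of_le hle, ← tsub_add_cancel_of_le h2, h3]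
      · rfl
      · rfl

theorem torNeAt_iff (J : Ideal (MvPolynomial (Fin n) k)) (P : (Fin n → ℕ) → Prop)
    (hJ : ∀ p, p ∈ J ↔ ∀ c ∈ p.support, P ⇑c) (i : ℕ) (b : Fin n →₀ ℕ) :
    TorNeAt J i b ↔ CombNe k P i b := by
  classical
  constructor
  · rintro ⟨f, hf1, hf2, hf3, hf4, hf5⟩
    refine ⟨comp f b, ?_, ?_, ?_⟩
    · intro T h
      unfold comp at h
      split_ifs at h with hle
      · refine ⟨⟨hle, (hJ _).mp (hf1 T) _ (MvPolynomial.mem_support_iff.mpr h)⟩, ?_⟩
        by_contra hne
        rw [hf3 T hne] at h
        simp at h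
      · exact absurd rfl h
    · intro T
      rw [← comp_koszulD]
      unfold comp
      rw [hf4]; simp
    · rintro ⟨g, hg1, hg2⟩
      apply hf5
      refine ⟨fun T => MvPolynomial.monomial (b - ind T) (g T), ?_, ?_, ?_⟩
      · intro T
        rw [hJ]
        intro c hc
        rw [MvPolynomial.mem_support_iff, MvPolynomial.coeff_monomial] at hc
        split_ifs at hc with h
        · rw [← h]; exact (hg1 T hc).1.2
        · exact absurd rfl hc
      · intro T hT
        have : g T = 0 := by
          by_contra h; exact hT (hg1 T h).2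
        beta_reduce
        rw [this, map_zero]
      · intro T
        ext c
        rw [← comp_add_ind, ← comp_add_ind, comp_koszulD]
        have h1 : comp (fun T => MvPolynomial.monomial (b - ind T) (g T)) (c + ind T) =
            fun T' => if c + ind T = b then g T' else 0 := by
          funext T'
          exact comp_monomial b g (fun T h => (hg1 T h).1.1) _ _
        rw [h1]
        by_cases h : c + ind T = b
        · simp only [if_pos h]
          rw [hg2, h]
        · simp only [if_neg h]
          rw [cd_zero, comp_add_ind]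
          by_contra hne
          exact h (hf2 T c (MvPolynomial.mem_support_iff.mpr (Ne.symm hne)))
  · rintro ⟨a, ha, hc, hne⟩
    have hle : ∀ T, a T ≠ 0 → ind T ≤ b := fun T h => (ha T h).1.1
    refine ⟨fun T => MvPolynomial.monomial (b - ind T) (a T), ?_, ?_, ?_, ?_, ?_⟩
    · intro T
      rw [hJ]
      intro c hc'
      rw [MvPolynomial.mem_support_iff, MvPolynomial.coeff_monomial] at hc'
      split_ifs at hc' with h
      · rw [← h]; exact (ha T hc').1.2
      · exact absurd rfl hc'
    · intro T c hc'
      rw [MvPolynomial.mem_support_iff, MvPolynomial.coeff_monomial] at hc'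
      split_ifs at hc' with h
      · rw [← h]; exact tsub_add_cancel_of_le (hle T hc')
      · exact absurd rfl hc'
    · intro T hT
      have : a T = 0 := by
        by_contra h; exact hT (ha T h).2
      beta_reduce
      rw [this, map_zero]
    · intro T
      ext c
      rw [← comp_add_ind, comp_koszulD, MvPolynomial.coeff_zero]
      have h1 : comp (fun T => MvPolynomial.monomial (b - ind T) (a T)) (c + ind T) =
          fun T' => if c + ind T = b then a T' else 0 := by
        funext T'
        exact comp_monomial b a hle _ _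
      rw [h1]
      by_cases h : c + ind T = b
      · simp only [if_pos h]; exact hc T
      · simp only [if_neg h]; exact cd_zero T
    · rintro ⟨g, hg1, hg2, hg3⟩
      apply hne
      refine ⟨comp g b, ?_, ?_⟩
      · intro T hT
        unfold comp at hT
        split_ifs at hT with hle
        · refine ⟨⟨hle, (hJ _).mp (hg1 T) _ (MvPolynomial.mem_support_iff.mpr hT)⟩, ?_⟩
          by_contra h
          rw [hg2 T h] at hT
          simp at hT
        · exact absurd rfl hT
      · intro T
        rw [← comp_koszulD]
        have : comp (koszulD g) b T = comp (fun T => MvPolynomial.monomial (b - ind T) (a T)) b T := by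
          unfold comp; rw [hg3]
        rw [this, comp_monomial b a hle, if_pos rfl]

end Pool.Agent.Q123
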