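import Pool.Agent.Q123.Sup

set_option autoImplicit false

/-!
Associated primes and v-numbers of homogeneous ideals of a polynomial ring.
-/

namespace Pool.Agent.Q123

open MvPolynomial

variable {σ : Type*} {K : Type*} [Field K]

/-- `p` is an associated prime of `R/J`: it is a prime ideal of the form `(J : f)`. -/
def IsAssociated {R : Type*} [CommRing R] (J p : Ideal R) : Prop :=
  p.IsPrime ∧ ∃ f : R, ∀ g : R, g ∈ p ↔ g * f ∈ J

/-- the local v-number of `J` at `p`: the least degree `d` of a homogeneous polynomial `f` with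
`(J : f) = p` -/
noncomputable def localV (J p : Ideal (MvPolynomial σ K)) : ℕ :=
  sInf {d | ∃ f : MvPolynomial σ K, f.IsHomogeneous d ∧ ∀ g, g ∈ p ↔ g * f ∈ J}

/-- the v-number of `J`: the least degree `d` of a homogeneous polynomial `f` such that `(J : f)`
is a prime ideal -/
noncomputable def vNumber (J : Ideal (MvPolynomial σ K)) : ℕ :=
  sInf {d | ∃ f : MvPolynomial σ K, f.IsHomogeneous d ∧
    ∃ p : Ideal (MvPolynomial σ K), p.IsPrime ∧ ∀ g, g ∈ p ↔ g * f ∈ J}

/-- the initial degree of `I`: the least degree of a nonzero homogeneous element of `I` -/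
noncomputable def initialDegree (I : Ideal (MvPolynomial σ K)) : ℕ :=
  sInf {d | ∃ f : MvPolynomial σ K, f ∈ I ∧ f ≠ 0 ∧ f.IsHomogeneous d}

/-- the value of a least degree -/
theorem sInf_eq_of {s : Set ℕ} {d : ℕ} (h1 : d ∈ s) (h2 : ∀ e ∈ s, d ≤ e) : sInf s = d :=
  le_antisymm (Nat.sInf_le h1) (le_csInf ⟨d, h1⟩ h2)

/-- the degree of an exponent of a homogeneous polynomial -/
theorem degree_of_mem_support {f : MvPolynomial σ K} {d : ℕ} (hf : f.IsHomogeneous d)
    {u : σ →₀ ℕ} (hu : u ∈ f.support) : u.degree = d := by
  have := hf (mem_support_iff.1 hu)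
  rw [Finsupp.degree_eq_weight_one]
  exact this

theorem weight_one_eq (u : σ →₀ ℕ) : Finsupp.weight (1 : σ → ℕ) u = u.degree := by
  rw [Finsupp.degree_eq_weight_one]; rfl

/-- the ideal generated by all the variables -/
theorem span_range_X_eq : Ideal.span (Set.range (X : σ → MvPolynomial σ K)) =
    wtIdeal K (1 : σ → ℕ) 1 := by
  classical
  apply le_antisymm
  · rw [Ideal.span_le]
    rintro _ ⟨i, rfl⟩
    have : monomial (Finsupp.single i 1) (1 : K) ∈ wtIdeal K (1 : σ → ℕ) 1 := by
      rw [monomial_mem_wtIdeal, weight_one_eq]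
      simp
    exact this
  · intro f hf
    refine mem_of_forall_monomial_mem fun u hu => ?_
    have h1 := hf u hu
    rw [weight_one_eq] at h1
    have : ∃ i, u i ≠ 0 := by
      by_contra hne
      push Not at hne
      have : u = 0 := Finsupp.ext hne
      rw [this] at h1
      simp at h1
    obtain ⟨i, hi⟩ := this
    have h2 : monomial u (1 : K) = monomial (u - Finsupp.single i 1) (1 : K) * X i := by
      rw [X, monomial_mul, mul_one]
      congr 2
      ext j
      by_cases hj : j = i
      · subst hj
        simp only [Finsupp.add_apply, Finsupp.tsub_apply, Finsupp.single_eq_same]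
        omega
      · simp [Finsupp.single_apply, Ne.symm hj]
    rw [h2]
    exact Ideal.mul_mem_left _ _ (Ideal.subset_span ⟨i, rfl⟩)

/-- a prime containing all the variables and not `1` is the ideal of all the variables -/
theorem wtIdeal_one_isMaximal : (wtIdeal K (1 : σ → ℕ) 1).IsMaximal := by
  classical
  rw [Ideal.isMaximal_iff]
  refine ⟨fun h => ?_, fun J f hJ hf hfJ => ?_⟩
  · have := (wtIdeal_one_isPrime (K := K) (1 : σ → ℕ)).ne_top
    exact this ((Ideal.eq_top_iff_one _).2 h)
  · have h0 : coeff 0 f ≠ 0 := by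
      intro h0
      apply hf
      intro u hu
      rw [weight_one_eq]
      by_contra hlt
      have hz : u = 0 := by
        have : u.degree = 0 := by omega
        exact (Finsupp.degree_eq_zero_iff u).1 this
      rw [hz] at hu
      exact (mem_support_iff.1 hu) h0
    have h1 : f - C (coeff 0 f) ∈ wtIdeal K (1 : σ → ℕ) 1 := by
      intro u hu
      rw [weight_one_eq]
      by_contra hlt
      have hz : u = 0 := by
        have : u.degree = 0 := by omega
        exact (Finsupp.degree_eq_zero_iff u).1 this
      rw [hz, mem_support_iff] at hu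
      apply hu
      simp
    have h2 : C (coeff 0 f) ∈ J := by
      have := J.sub_mem hfJ (hJ h1)
      simpa using this
    have h3 := J.mul_mem_left (C (coeff 0 f)⁻¹) h2
    rw [← C_mul, inv_mul_cancel₀ h0, C_1] at h3
    exact h3

end Pool.Agent.Q123
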