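import Pool.Agent.Q123.PolyPow
import Pool.Agent.Q123.ExchRank
import Pool.Agent.Q123.VNum

set_option autoImplicit false

/-!
Colon ideals and associated primes of the homological shift ideals of the powers of a
polymatroidal ideal.
-/

namespace Pool.Agent.Q123

open Finset Pool.Agent.H677R3.EdgeReg MvPolynomial
open scoped Pointwise

variable {n : ℕ} {K : Type*} [Field K]

/-- the exponents of the generators of the homological shift ideal -/
def shiftGens (B : Set (Fin n →₀ ℕ)) (d k i : ℕ) : Set (Fin n →₀ ℕ) :=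
  {m | m.degree = k * d + i ∧ GoodFam (nsum B k) m}

theorem homShift_eq {B : Set (Fin n →₀ ℕ)} (hB : NExch B) {d : ℕ} (hd : ∀ b ∈ B, b.degree = d)
    (k i : ℕ) : homShift i (Ideal.span ((fun s => monomial s (1 : K)) '' B) ^ k) =
      Ideal.span ((fun s => monomial s (1 : K)) '' shiftGens B d k i) := by
  unfold homShift
  congr 1
  ext f
  constructor
  · rintro ⟨m, hm, rfl⟩
    rw [torNeAt_pow_iff hB hd] at hm
    exact ⟨m, hm, rfl⟩
  · rintro ⟨m, hm, rfl⟩
    exact ⟨m, (torNeAt_pow_iff hB hd k i m).2 hm, rfl⟩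

theorem finite_degree (S : Set (Fin n →₀ ℕ)) (N : ℕ) (h : ∀ b ∈ S, b.degree = N) : S.Finite := by
  apply (Set.finite_Iic (Finsupp.equivFunOnFinite.symm (fun _ : Fin n => N))).subset
  intro b hb
  rw [Set.mem_Iic]
  intro x
  have h1 := h b hb
  rw [Finsupp.degree_eq_sum] at h1
  have := Finset.single_le_sum (f := fun i => b i) (s := Finset.univ) (fun _ _ => Nat.zero_le _)
    (Finset.mem_univ x)
  simp only [h1] at this
  simpa using this

theorem toZ_image_shiftGens {B : Set (Fin n →₀ ℕ)} {d : ℕ} (hd : ∀ b ∈ B, b.degree = d)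
    (k i : ℕ) : toZ '' shiftGens B d k i = GoodZ (msum (toZ '' B) k) i := by
  rw [← toZ_image_nsum]
  have hfam : ∀ (m : Fin n →₀ ℕ), m.degree = k * d + i → ∀ T, Fam (nsum B k) m T →
      T.card = i := by
    intro m hm T hT
    have := fam_card (nsum_degree hd k) hT
    omega
  ext v
  constructor
  · rintro ⟨m, ⟨hm, ⟨F, hF⟩, hcol⟩, rfl⟩
    refine ⟨⟨F, hfam m hm F hF, fam_iff.1 hF⟩, fun j => ?_⟩
    obtain ⟨T, hj, hT⟩ := hcol j
    exact ⟨T, hfam m hm T hT, hj, fam_iff.1 hT⟩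
  · rintro ⟨⟨F, hFc, b, hb, hbv⟩, hcol⟩
    have hv : v = toZ (b + ind F) := by
      rw [toZ_add, toZ_ind, hbv]; abel
    subst hv
    refine ⟨b + ind F, ⟨?_, ⟨F, b, hb, rfl⟩, fun j => ?_⟩, rfl⟩
    · rw [map_add, nsum_degree hd k b hb, degree_ind, hFc]
    · obtain ⟨T, -, hj, hT⟩ := hcol j
      exact ⟨T, hj, fam_iff.2 hT⟩

/-- the exponents of the generators of the homological shift ideals have the exchange property -/
theorem shiftGens_exch {B : Set (Fin n →₀ ℕ)} (hB : NExch B) {d : ℕ}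
    (hd : ∀ b ∈ B, b.degree = d) (k i : ℕ) : Exch (toZ '' shiftGens B d k i) := by
  rw [toZ_image_shiftGens hd]
  have hfin : (msum (toZ '' B) k).Finite := by
    rw [← toZ_image_nsum]
    exact (finite_degree _ _ (nsum_degree hd k)).image _
  exact goodZ_exch (msum_exch hB.exch k) (d := (k * d : ℕ)) (by
    rw [← toZ_image_nsum]
    rintro _ ⟨w, hw, rfl⟩
    rw [toZ_sum, nsum_degree hd k w hw]) hfin i

/-- the colon property -/
theorem mem_of_mul_mem {B L : Set (Fin n →₀ ℕ)} (hBne : B.Nonempty)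
    (hL : Exch (toZ '' L)) {e : ℕ} (he : ∀ b ∈ L, b.degree = e) {f : MvPolynomial (Fin n) K}
    (h : ∀ u ∈ B, f * monomial u 1 ∈ Ideal.span ((fun s => monomial s (1 : K)) '' B) *
      Ideal.span ((fun s => monomial s (1 : K)) '' L)) :
    f ∈ Ideal.span ((fun s => monomial s (1 : K)) '' L) := by
  classical
  rw [mem_span_iff]
  intro c hc
  by_contra hne
  push Not at hne
  obtain ⟨A, hA⟩ := hL.exists_lt (d := e) (by
    rintro _ ⟨w, hw, rfl⟩
    rw [toZ_sum, he w hw]) (c := toZ c) (by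
      rintro _ ⟨w, hw, rfl⟩ hle
      apply hne w hw
      intro x
      have := hle x
      simpa [toZ] using this)
  -- an element of `B` which is minimal on `A`
  obtain ⟨u, hu, hmin⟩ : ∃ u ∈ B, ∀ u' ∈ B, ∑ x ∈ A, u x ≤ ∑ x ∈ A, u' x := by
    obtain ⟨u, hu, hmin⟩ := (InvImage.wf (fun u : Fin n →₀ ℕ => ∑ x ∈ A, u x)
      (Nat.lt_wfRel.wf)).has_min B hBne
    exact ⟨u, hu, fun u' hu' => not_lt.1 (hmin u' hu')⟩
  have hmul := h u hu
  rw [Ideal.span_mul_span'] at hmul
  have hset : ((fun s => monomial s (1 : K)) '' B) * ((fun s => monomial s (1 : K)) '' L) =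
      (fun s => monomial s (1 : K)) '' {w | ∃ b ∈ B, ∃ c ∈ L, w = b + c} := by
    ext f
    rw [Set.mem_mul]
    constructor
    · rintro ⟨_, ⟨b, hb, rfl⟩, _, ⟨c, hc, rfl⟩, rfl⟩
      exact ⟨b + c, ⟨b, hb, c, hc, rfl⟩, by simp [monomial_mul]⟩
    · rintro ⟨_, ⟨b, hb, c, hc, rfl⟩, rfl⟩
      exact ⟨_, ⟨b, hb, rfl⟩, _, ⟨c, hc, rfl⟩, by simp [monomial_mul]⟩
  rw [hset, mem_span_iff] at hmul
  have hcu : c + u ∈ (f * monomial u 1).support := by
    rw [mem_support_iff, coeff_mul_monomial, mul_one]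
    exact mem_support_iff.1 hc
  obtain ⟨_, ⟨u', hu', w, hw, rfl⟩, hle⟩ := hmul _ hcu
  have h1 := hA _ ⟨w, hw, rfl⟩
  have h2 := hmin u' hu'
  have h3 : ∑ x ∈ A, (u' + w) x ≤ ∑ x ∈ A, (c + u) x := Finset.sum_le_sum fun x _ => hle x
  simp only [Finsupp.add_apply, Finset.sum_add_distrib] at h3
  simp only [toZ] at h1
  have h4 : ∑ x ∈ A, c x < ∑ x ∈ A, w x := by exact_mod_cast h1
  omega

/-- associated primes persist -/
theorem isAssociated_mul {B L : Set (Fin n →₀ ℕ)} {d : ℕ} (hd : ∀ b ∈ B, b.degree = d)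
    (hBne : B.Nonempty) (hL : Exch (toZ '' L)) {e : ℕ} (he : ∀ b ∈ L, b.degree = e)
    {P : Ideal (MvPolynomial (Fin n) K)}
    (hP : IsAssociated (Ideal.span ((fun s => monomial s (1 : K)) '' L)) P) :
    IsAssociated (Ideal.span ((fun s => monomial s (1 : K)) '' B) *
      Ideal.span ((fun s => monomial s (1 : K)) '' L)) P := by
  classical
  obtain ⟨hprime, f, hf⟩ := hP
  have hfin := finite_degree B d hd
  refine ⟨hprime, ?_⟩
  by_contra hcon
  push Not at hcon
  have hex : ∀ u ∈ B, ∃ g, g ∉ P ∧ g * (f * monomial u 1) ∈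
      Ideal.span ((fun s => monomial s (1 : K)) '' B) *
      Ideal.span ((fun s => monomial s (1 : K)) '' L) := by
    intro u hu
    obtain ⟨g, hg⟩ := hcon (f * monomial u 1)
    rcases hg with ⟨h1, h2⟩ | ⟨h1, h2⟩
    · exfalso
      apply h2
      rw [hf] at h1
      rw [show g * (f * monomial u 1) = monomial u 1 * (g * f) by ring]
      exact Ideal.mul_mem_mul (Ideal.subset_span ⟨u, hu, rfl⟩) h1
    · exact ⟨g, h1, h2⟩
  choose! G hG1 hG2 using hex
  have hprod : ∏ u ∈ hfin.toFinset, G u ∉ P := by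
    rw [hprime.prod_mem_iff]
    rintro ⟨u, hu, hmem⟩
    exact hG1 u (hfin.mem_toFinset.1 hu) hmem
  apply hprod
  rw [hf]
  apply mem_of_mul_mem hBne hL he
  intro u hu
  rw [← Finset.mul_prod_erase _ _ (hfin.mem_toFinset.2 hu)]
  rw [show (G u * ∏ x ∈ hfin.toFinset.erase u, G x) * f * monomial u 1 =
    (∏ x ∈ hfin.toFinset.erase u, G x) * (G u * (f * monomial u 1)) by ring]
  exact Ideal.mul_mem_left _ _ (hG2 u hu)

end Pool.Agent.Q123
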