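import Pool.Agent.Q123.HomShift

set_option autoImplicit false

/-!
Powers of polymatroidal ideals and their homological shift ideals.
-/

namespace Pool.Agent.Q123

open Finset Pool.Agent.H677R3.EdgeReg MvPolynomial

variable {n : ℕ} {K : Type*} [Field K]

/-- `I` is a polymatroidal ideal: it is generated by the monomials with exponents in a set `B`,
all of the same degree, with the exchange property: if `u, v ∈ B` and `v p < u p` then there is
`q` with `u q < v q` and `u - e_p + e_q ∈ B`.  (As all the degrees agree, `B` is then the set of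
the exponents of the minimal monomial generators.) -/
def IsPolymatroidal (I : Ideal (MvPolynomial (Fin n) K)) : Prop :=
  ∃ (B : Set (Fin n →₀ ℕ)) (d : ℕ), I = Ideal.span ((fun s => monomial s (1 : K)) '' B) ∧
    (∀ b ∈ B, b.degree = d) ∧
    ∀ u ∈ B, ∀ v ∈ B, ∀ p, v p < u p →
      ∃ q, u q < v q ∧ u - Finsupp.single p 1 + Finsupp.single q 1 ∈ B

theorem nsum_succ (B : Set (Fin n →₀ ℕ)) (k : ℕ) :
    nsum B (k + 1) = {w | ∃ b ∈ B, ∃ c ∈ nsum B k, w = b + c} := by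
  ext w
  constructor
  · rintro ⟨u, hu, rfl⟩
    exact ⟨u 0, hu 0, ∑ s : Fin k, u s.succ, ⟨fun s => u s.succ, fun s => hu _, rfl⟩,
      Fin.sum_univ_succ u⟩
  · rintro ⟨b, hb, c, ⟨u, hu, rfl⟩, rfl⟩
    refine ⟨Fin.cons b u, ?_, ?_⟩
    · intro s
      refine Fin.cases ?_ (fun t => ?_) s
      · simpa using hb
      · simpa using hu t
    · rw [Fin.sum_univ_succ]
      simp

theorem span_pow_eq (B : Set (Fin n →₀ ℕ)) (k : ℕ) :
    Ideal.span ((fun s => monomial s (1 : K)) '' B) ^ k =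
      Ideal.span ((fun s => monomial s (1 : K)) '' nsum B k) := by
  induction k with
  | zero =>
    have : nsum B 0 = {0} := by
      ext w
      constructor
      · rintro ⟨u, -, rfl⟩
        simp
      · rintro rfl
        exact ⟨Fin.elim0, fun s => s.elim0, by simp⟩
    rw [this, pow_zero, Set.image_singleton, Ideal.one_eq_top]
    exact (Ideal.span_singleton_one).symm
  | succ k ih =>
    rw [pow_succ', ih, Ideal.span_mul_span', nsum_succ]
    congr 1
    ext f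
    rw [Set.mem_mul]
    constructor
    · rintro ⟨_, ⟨b, hb, rfl⟩, _, ⟨c, hc, rfl⟩, rfl⟩
      exact ⟨b + c, ⟨b, hb, c, hc, rfl⟩, by simp [monomial_mul]⟩
    · rintro ⟨_, ⟨b, hb, c, hc, rfl⟩, rfl⟩
      exact ⟨_, ⟨b, hb, rfl⟩, _, ⟨c, hc, rfl⟩, by simp [monomial_mul]⟩

theorem mem_span_iff (B : Set (Fin n →₀ ℕ)) (p : MvPolynomial (Fin n) K) :
    p ∈ Ideal.span ((fun s => monomial s (1 : K)) '' B) ↔
      ∀ c ∈ p.support, (fun c : Fin n → ℕ => ∃ b ∈ B, ⇑b ≤ c) ⇑c :=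
  mem_ideal_span_monomial_image

/-- the multigraded support of Tor of the powers of a polymatroidal ideal -/
theorem torNeAt_pow_iff {B : Set (Fin n →₀ ℕ)} (hB : NExch B) {d : ℕ}
    (hd : ∀ b ∈ B, b.degree = d) (k i : ℕ) (m : Fin n →₀ ℕ) :
    TorNeAt (Ideal.span ((fun s => monomial s (1 : K)) '' B) ^ k) i m ↔
      m.degree = k * d + i ∧ GoodFam (nsum B k) m := by
  rw [span_pow_eq, torNeAt_iff _ (fun c : Fin n → ℕ => ∃ b ∈ nsum B k, ⇑b ≤ c)
    (mem_span_iff (nsum B k)), combNe_iff (nsum_exch hB k) (nsum_degree hd k)]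

/-- dropping a summand, for exponents -/
theorem goodFam_drop {B : Set (Fin n →₀ ℕ)} (hB : NExch B) {d : ℕ} (hd : ∀ b ∈ B, b.degree = d)
    {k i : ℕ} (hik : i ≤ k) {m : Fin n →₀ ℕ} (hm : m.degree = (k + 1) * d + i)
    (hg : GoodFam (nsum B (k + 1)) m) :
    ∃ u ∈ B, ∃ m', m = u + m' ∧ m'.degree = k * d + i ∧ GoodFam (nsum B k) m' := by
  obtain ⟨⟨F, hF⟩, hcol⟩ := hg
  have hFc : F.card = i := by
    have := fam_card (nsum_degree hd (k + 1)) hF
    omega
  obtain ⟨_, ⟨u, hu, rfl⟩, h1, h2⟩ := hB.exch.drop (d := d) (by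
    rintro _ ⟨w, hw, rfl⟩
    rw [toZ_sum, hd w hw]) (k := k) (a := toZ m) (F := F) (by omega)
    (by rw [← toZ_image_nsum]; exact fam_iff.1 hF)
    (by
      intro j
      obtain ⟨T, hjT, hT⟩ := hcol j
      exact ⟨T, hjT, by rw [← toZ_image_nsum]; exact fam_iff.1 hT⟩)
  have hle : u ≤ m := by
    rw [← toZ_image_nsum] at h1
    obtain ⟨c, -, hc⟩ := h1
    intro x
    have := congrFun hc x
    simp only [toZ, ivec, Pi.sub_apply] at this
    split_ifs at this <;> omega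
  have hmu : m = u + (m - u) := (add_tsub_cancel_of_le hle).symm
  have hz : toZ (m - u) = toZ m - toZ u := by
    rw [eq_sub_iff_add_eq, ← toZ_add, tsub_add_cancel_of_le hle]
  refine ⟨u, hu, m - u, hmu, ?_, ⟨F, ?_⟩, fun j => ?_⟩
  · have := congrArg Finsupp.degree hmu
    rw [map_add, hd u hu, hm, Nat.succ_mul] at this
    omega
  · rw [fam_iff, toZ_image_nsum, hz]
    exact h1
  · obtain ⟨T, hjT, hT⟩ := h2 j
    refine ⟨T, hjT, ?_⟩
    rw [fam_iff, toZ_image_nsum, hz]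
    exact hT

theorem goodFam_add {B : Set (Fin n →₀ ℕ)} {k : ℕ} {u m : Fin n →₀ ℕ} (hu : u ∈ B)
    (hg : GoodFam (nsum B k) m) : GoodFam (nsum B (k + 1)) (u + m) := by
  have h : ∀ T, Fam (nsum B k) m T → Fam (nsum B (k + 1)) (u + m) T := by
    rintro T ⟨b, hb, rfl⟩
    refine ⟨u + b, ?_, by rw [add_assoc]⟩
    rw [nsum_succ]
    exact ⟨u, hu, b, hb, rfl⟩
  obtain ⟨⟨F, hF⟩, hcol⟩ := hg
  refine ⟨⟨F, h F hF⟩, fun j => ?_⟩
  obtain ⟨T, hjT, hT⟩ := hcol j
  exact ⟨T, hjT, h T hT⟩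

/-- one inclusion holds for all powers -/
theorem mul_homShift_le {I : Ideal (MvPolynomial (Fin n) K)} (hI : IsPolymatroidal I) (i k : ℕ) :
    I * homShift i (I ^ k) ≤ homShift i (I ^ (k + 1)) := by
  obtain ⟨B, d, rfl, hd, hB⟩ := hI
  unfold homShift
  rw [Ideal.span_mul_span']
  apply Ideal.span_le.2
  rintro _ ⟨_, ⟨u, hu, rfl⟩, _, ⟨m, hm, rfl⟩, rfl⟩
  apply Ideal.subset_span
  rw [torNeAt_pow_iff hB hd] at hm
  refine ⟨u + m, ?_, by simp [monomial_mul]⟩
  rw [torNeAt_pow_iff hB hd]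
  refine ⟨?_, goodFam_add hu hm.2⟩
  rw [map_add, hd u hu, hm.1, Nat.succ_mul]
  omega

/-- the homological shift ideals of high powers -/
theorem homShift_pow_succ {I : Ideal (MvPolynomial (Fin n) K)} (hI : IsPolymatroidal I) {i k : ℕ}
    (hik : i ≤ k) : homShift i (I ^ (k + 1)) = I * homShift i (I ^ k) := by
  apply le_antisymm _ (mul_homShift_le hI i k)
  obtain ⟨B, d, rfl, hd, hB⟩ := hI
  unfold homShift
  apply Ideal.span_le.2
  rintro _ ⟨m, hm, rfl⟩
  rw [torNeAt_pow_iff hB hd] at hm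
  obtain ⟨u, hu, m', rfl, hm', hg⟩ := goodFam_drop hB hd hik hm.1 hm.2
  have : monomial (u + m') (1 : K) = monomial u (1 : K) * monomial m' (1 : K) := by
    simp [monomial_mul]
  show monomial (u + m') (1 : K) ∈ _
  rw [this]
  refine Ideal.mul_mem_mul (Ideal.subset_span ⟨u, hu, rfl⟩) (Ideal.subset_span ⟨m', ?_, rfl⟩)
  rw [torNeAt_pow_iff hB hd]
  exact ⟨hm', hg⟩

end Pool.Agent.Q123
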