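import Pool.Agent.Q123.PolyPow

set_option autoImplicit false

/-!
Regularity of ideals generated by monomials of one degree with the exchange property.
-/

namespace Pool.Agent.Q123

open Finset Pool.Agent.H677R3.EdgeReg MvPolynomial

variable {n : ℕ} {K : Type*} [Field K]

theorem isReg_of_nexch {B : Set (Fin n →₀ ℕ)} (hB : NExch B) {D : ℕ}
    (hD : ∀ b ∈ B, b.degree = D) (hne : B.Nonempty) :
    IsReg (Ideal.span ((fun s => monomial s (1 : K)) '' B)) D := by
  classical
  have hJ := mem_span_iff (K := K) B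
  constructor
  · obtain ⟨b, hb⟩ := hne
    refine ⟨0, lower_transfer _ (fun c : Fin n → ℕ => ∃ b ∈ B, ⇑b ≤ c) hJ 0 D b ?_
      (fun T => if T = ∅ then 1 else 0) ?_ ?_ ?_⟩
    · have := hD b hb
      rw [Finsupp.degree_eq_sum] at this
      omega
    · intro T hT
      have hT0 : T = ∅ := by
        by_contra h
        exact hT (if_neg h)
      subst hT0
      refine ⟨kk_iff.2 ⟨b, hb, ?_⟩, rfl⟩
      intro x
      simp
    · intro T
      unfold cd
      refine Finset.sum_eq_zero fun j _ => ?_
      beta_reduce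
      rw [if_neg (Finset.insert_ne_empty j T), mul_zero]
    · rintro ⟨g, hg1, hg2⟩
      have hg0 : g = fun _ => 0 := by
        funext T
        by_contra h
        have h1 := hg1 T h
        have h2 := qq_card hD (kk_iff.1 h1.1)
        rw [hD b hb] at h2
        omega
      have := hg2 ∅
      rw [hg0, cd_zero, if_pos rfl] at this
      exact zero_ne_one this
  · rintro e ⟨i, hi⟩
    by_contra hlt
    refine upper_transfer _ (fun c : Fin n → ℕ => ∃ b ∈ B, ⇑b ≤ c) hJ i e ?_ hi
    intro b hb a ha hcyc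
    have hdeg : b.degree ≠ D + i := by
      rw [Finsupp.degree_eq_sum, hb]
      omega
    obtain ⟨c, hc1, hc2⟩ := exists_of_relAcyc
      (relAcyc_lex (k := K) hB le_rfl (fun _ _ b' hb' _ => hb') hD hdeg)
      (fun T h => ⟨kk_iff.1 (ha T h).1, (ha T h).2⟩) hcyc
    exact ⟨c, fun T h => ⟨kk_iff.2 (hc1 T h).1, (hc1 T h).2⟩, hc2⟩

end Pool.Agent.Q123
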