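import Mathlib

/-!
Homogenized chain complexes of labelled simplicial complexes, Scarf faces, and an abstract
obstruction (a triangular bipyramid of Scarf triangles which is not a boundary).
-/

open Finset

namespace Pool.Agent.Q123.Scarf

variable {V ι : Type*}

/-- The label of a face: the least common multiple of the labels of its vertices, written as an
exponent vector (the pointwise maximum of the exponent vectors of the vertices). -/
noncomputable def label (g : V → ι →₀ ℕ) (σ : Finset V) : ι →₀ ℕ := σ.sup g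

/-- Scarf faces: nonempty faces of the Taylor simplex with a label that no other nonempty face
has. -/
def IsScarf (g : V → ι →₀ ℕ) (σ : Finset V) : Prop :=
  σ.Nonempty ∧ ∀ τ : Finset V, τ.Nonempty → label g τ = label g σ → τ = σ

/-- The image of the basis element `e_σ` under the homogenized differential; for a vertex `v` it is
`x^{g v} e_∅`, i.e. the augmentation. -/
noncomputable def bd (k : Type*) [Field k] [LinearOrder V] (g : V → ι →₀ ℕ) (σ : Finset V) :
    Finset V →₀ MvPolynomial ι k :=
  ∑ v ∈ σ, Finsupp.single (σ.erase v)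
    (MvPolynomial.monomial (label g σ - label g (σ.erase v)) ((-1) ^ (σ.filter (· < v)).card))

/-- The homogenized differential. -/
noncomputable def diff (k : Type*) [Field k] [LinearOrder V] (g : V → ι →₀ ℕ) :
    (Finset V →₀ MvPolynomial ι k) →ₗ[MvPolynomial ι k] (Finset V →₀ MvPolynomial ι k) :=
  Finsupp.linearCombination (MvPolynomial ι k) (bd k g)

/-- Exactness of the (augmented) homogenized complex of `X` at the chains on faces with `n`
vertices. -/
def ExactAt (k : Type*) [Field k] [LinearOrder V] (g : V → ι →₀ ℕ) (X : Set (Finset V)) (n : ℕ) :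
    Prop :=
  ∀ c : Finset V →₀ MvPolynomial ι k, (∀ σ ∈ c.support, σ ∈ X ∧ σ.card = n) → diff k g c = 0 →
    ∃ c' : Finset V →₀ MvPolynomial ι k, (∀ σ ∈ c'.support, σ ∈ X ∧ σ.card = n + 1) ∧
      diff k g c' = c

/-- `X` supports a free resolution of the ideal `I`. -/
def Supports (k : Type*) [Field k] [LinearOrder V] (g : V → ι →₀ ℕ) (X : Set (Finset V))
    (I : Ideal (MvPolynomial ι k)) : Prop :=
  Ideal.span {f | ∃ v, ({v} : Finset V) ∈ X ∧ f = MvPolynomial.monomial (g v) 1} = I ∧
    ∀ n, 1 ≤ n → ExactAt k g X n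

section

variable (k : Type*) [Field k] [LinearOrder V] (g : V → ι →₀ ℕ)

omit [LinearOrder V] in
lemma label_mono {σ τ : Finset V} (h : σ ⊆ τ) : label g σ ≤ label g τ := Finset.sup_mono h

lemma diff_single (σ : Finset V) (f : MvPolynomial ι k) :
    diff k g (Finsupp.single σ f) = f • bd k g σ := by
  simp [diff, Finsupp.linearCombination_single]

/-- coefficient of a `bd`. -/
noncomputable def cf (σ : Finset V) (v : V) : MvPolynomial ι k :=
  MvPolynomial.monomial (label g σ - label g (σ.erase v)) ((-1) ^ (σ.filter (· < v)).card)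

lemma bd_eq (σ : Finset V) : bd k g σ = ∑ v ∈ σ, Finsupp.single (σ.erase v) (cf k g σ v) := rfl

lemma sign_aux {σ : Finset V} {u v : V} (hu : u ∈ σ) (huv : u < v) :
    (σ.filter (· < v)).card = ((σ.erase u).filter (· < v)).card + 1 := by
  rw [Finset.filter_erase, Finset.card_erase_of_mem]
  · have : 0 < (σ.filter (· < v)).card := Finset.card_pos.mpr ⟨u, by simp [hu, huv]⟩
    omega
  · simp [hu, huv]

lemma sign_aux2 {σ : Finset V} {u v : V} (huv : u < v) :
    (σ.filter (· < u)).card = ((σ.erase v).filter (· < u)).card := by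
  congr 1
  ext w
  simp only [Finset.mem_filter, Finset.mem_erase]
  constructor
  · rintro ⟨h1, h2⟩
    exact ⟨⟨(h2.trans huv).ne, h1⟩, h2⟩
  · rintro ⟨⟨_, h1⟩, h2⟩
    exact ⟨h1, h2⟩

lemma cf_comm {σ : Finset V} {u v : V} (hu : u ∈ σ) (huv : u < v) :
    cf k g σ v * cf k g (σ.erase v) u + cf k g σ u * cf k g (σ.erase u) v = 0 := by
  unfold cf
  rw [MvPolynomial.monomial_mul, MvPolynomial.monomial_mul]
  have e1 : (σ.erase u).erase v = (σ.erase v).erase u := Finset.erase_right_comm
  rw [tsub_add_tsub_cancel (label_mono g (Finset.erase_subset _ _))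
    (label_mono g (Finset.erase_subset _ _)), tsub_add_tsub_cancel
    (label_mono g (Finset.erase_subset _ _)) (label_mono g (Finset.erase_subset _ _)), e1]
  rw [← map_add, ← sign_aux2 huv, sign_aux hu huv]
  have e2 : ((-1 : k) ^ (((σ.erase u).filter (· < v)).card + 1) * (-1) ^ (σ.filter (· < u)).card +
    (-1) ^ (σ.filter (· < u)).card * (-1) ^ ((σ.erase u).filter (· < v)).card) = 0 := by ring
  rw [e2, map_zero]

lemma diff_bd (σ : Finset V) : diff k g (bd k g σ) = 0 := by
  rw [bd_eq, map_sum]
  simp_rw [diff_single, bd_eq, Finset.smul_sum, Finsupp.smul_single, smul_eq_mul]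
  rw [Finset.sum_sigma']
  refine Finset.sum_involution (fun x _ => (⟨x.2, x.1⟩ : Σ _ : V, V)) ?_ ?_ ?_ ?_
  · rintro ⟨v, u⟩ h
    simp only [Finset.mem_sigma, Finset.mem_erase] at h
    obtain ⟨hv, huv, hu⟩ := h
    have e1 : (σ.erase u).erase v = (σ.erase v).erase u := Finset.erase_right_comm
    simp only [e1]
    rw [← Finsupp.single_add]
    rcases lt_or_gt_of_ne huv with h | h
    · rw [cf_comm k g hu h, Finsupp.single_zero]
    · rw [add_comm, cf_comm k g hv h, Finsupp.single_zero]
  · rintro ⟨v, u⟩ h _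
    simp only [Finset.mem_sigma, Finset.mem_erase] at h
    intro e
    have := congrArg Sigma.fst e
    exact h.2.1 this
  · rintro ⟨v, u⟩ h
    simp only [Finset.mem_sigma, Finset.mem_erase] at h ⊢
    exact ⟨h.2.2, h.2.1.symm, h.1⟩
  · rintro ⟨v, u⟩ h
    rfl

lemma diff_diff (c : Finset V →₀ MvPolynomial ι k) : diff k g (diff k g c) = 0 := by
  induction c using Finsupp.induction_linear with
  | zero => simp
  | add f h hf hh => rw [map_add, map_add, hf, hh, add_zero]
  | single σ f => rw [diff_single, map_smul, diff_bd, smul_zero]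

lemma isScarf_not {σ : Finset V} (hσ : IsScarf g σ) (v : V) (hne : (σ.erase v).Nonempty) :
    ¬ g v ≤ label g (σ.erase v) := by
  intro hle
  have hσn : σ.Nonempty := hσ.1
  by_cases hv : v ∈ σ
  · have : label g (σ.erase v) = label g σ := by
      apply le_antisymm (label_mono g (Finset.erase_subset _ _))
      unfold label
      conv_lhs => rw [← Finset.insert_erase hv]
      rw [Finset.sup_insert]
      exact sup_le hle le_rfl
    have h2 := hσ.2 _ hne this
    have h3 := Finset.notMem_erase v σ
    rw [h2] at h3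
    exact h3 hv
  · have e0 : σ.erase v = σ := Finset.erase_eq_of_notMem hv
    rw [e0] at hle
    have : label g (insert v σ) = label g σ := by
      unfold label
      rw [Finset.sup_insert]
      exact sup_eq_right.mpr hle
    have h2 := hσ.2 _ (Finset.insert_nonempty _ _) this
    have h3 : v ∈ insert v σ := Finset.mem_insert_self v σ
    rw [h2] at h3
    exact hv h3

lemma isScarf_of {σ : Finset V} (hne : σ.Nonempty) (h : ∀ v, ¬ g v ≤ label g (σ.erase v)) :
    IsScarf g σ := by
  refine ⟨hne, fun τ _ hτ => ?_⟩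
  have hsub : τ ⊆ σ := by
    intro w hw
    by_contra hwσ
    apply h w
    rw [Finset.erase_eq_of_notMem hwσ, ← hτ]
    exact Finset.le_sup (f := g) hw
  apply Finset.Subset.antisymm hsub
  intro v hv
  by_contra hvτ
  apply h v
  calc g v ≤ label g σ := Finset.le_sup (f := g) hv
    _ = label g τ := hτ.symm
    _ ≤ label g (σ.erase v) := label_mono g (fun w hw =>
        Finset.mem_erase.mpr ⟨fun e => hvτ (e ▸ hw), hsub hw⟩)

/-- A boundary has vanishing coefficient at `h - m_τ` if no face with label dividing `h` occurs. -/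
lemma coeff_diff (c : Finset V →₀ MvPolynomial ι k) (h : ι →₀ ℕ) (τ : Finset V)
    (hτ : label g τ ≤ h) (hc : ∀ σ ∈ c.support, ¬ label g σ ≤ h) :
    MvPolynomial.coeff (h - label g τ) (diff k g c τ) = 0 := by
  unfold diff
  rw [Finsupp.linearCombination_apply, Finsupp.sum, Finsupp.finsetSum_apply,
    MvPolynomial.coeff_sum]
  apply Finset.sum_eq_zero
  intro σ hσ
  have hn := hc σ hσ
  rw [Finsupp.smul_apply, bd_eq, Finsupp.finsetSum_apply, Finset.smul_sum,
    MvPolynomial.coeff_sum]
  apply Finset.sum_eq_zero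
  intro v hv
  rw [Finsupp.single_apply]
  split_ifs with hvτ
  · unfold cf
    rw [smul_eq_mul, MvPolynomial.coeff_mul_monomial', if_neg]
    intro hle
    apply hn
    have h1 : label g (σ.erase v) ≤ label g σ := label_mono g (Finset.erase_subset _ _)
    rw [hvτ] at hle h1
    have := add_le_add_left hle (label g τ)
    rwa [tsub_add_cancel_of_le h1, tsub_add_cancel_of_le hτ] at this
  · simp

end

section obstruction

variable {k : Type*} [Field k] [LinearOrder V] {g : V → ι →₀ ℕ}

lemma neg_one_mul_self (n : ℕ) : ((-1 : k) ^ n) * (-1) ^ n = 1 := by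
  rw [← mul_pow]; simp

/-- The abstract obstruction. -/
theorem not_exactAt (p : Fin 5 → V) (hp : Function.Injective p)
    (h1 : ∀ w, g w ≤ label g (univ.map ⟨p, hp⟩) → ∃ j, w = p j)
    (h2 : g (p 2) ≤ g (p 1) ⊔ g (p 4)) (h3 : g (p 3) ≤ g (p 1) ⊔ g (p 4))
    (h4 : g (p 1) ≤ g (p 0) ⊔ g (p 2) ⊔ g (p 3))
    (h5 : ∀ T ∈ ({{0,1,2},{0,1,3},{0,2,4},{0,3,4},{1,2,3},{2,3,4}} : Finset (Finset (Fin 5))),
      ∀ v : Fin 5, ¬ g (p v) ≤ label g ((T.erase v).map ⟨p, hp⟩)) :
    ¬ ExactAt k g {σ | IsScarf g σ} 3 := by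
  classical
  set P : Fin 5 ↪ V := ⟨p, hp⟩ with hP
  set h : ι →₀ ℕ := label g (univ.map P) with hh
  have hle : ∀ S : Finset (Fin 5), label g (S.map P) ≤ h := fun S =>
    label_mono g (Finset.map_subset_map.mpr (Finset.subset_univ S))
  -- the triangles are Scarf
  have hS : ∀ T ∈ ({{0,1,2},{0,1,3},{0,2,4},{0,3,4},{1,2,3},{2,3,4}} : Finset (Finset (Fin 5))),
      IsScarf g (T.map P) := by
    intro T hT
    apply isScarf_of
    · have : T.Nonempty := by
        revert T
        decide
      exact this.map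
    · intro v hv
      by_cases hvC : ∃ j, v = p j
      · obtain ⟨j, rfl⟩ := hvC
        apply h5 T hT j
        have e : (T.map P).erase (p j) = (T.erase j).map P := by
          rw [Finset.map_erase]; rfl
        rw [e] at hv
        exact hv
      · apply hvC
        apply h1 v
        refine hv.trans ?_
        refine (label_mono g (Finset.erase_subset _ _)).trans (hle T)
  -- four-element faces are not Scarf
  have hN : ∀ σ : Finset V, IsScarf g σ → σ.card = 4 → ¬ label g σ ≤ h := by
    intro σ hσ hc hle'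
    have hsub : σ ⊆ univ.map P := by
      intro w hw
      obtain ⟨j, rfl⟩ := h1 w ((Finset.le_sup (f := g) hw).trans hle')
      simp [hP]
    obtain ⟨S, -, rfl⟩ := Finset.subset_map_iff.mp hsub
    rw [Finset.card_map] at hc
    have key : ∃ v : Fin 5, (S.erase v).Nonempty ∧ g (p v) ≤ label g ((S.erase v).map P) := by
      have hS' : S = {1,2,3,4} ∨ S = {0,2,3,4} ∨ S = {0,1,3,4} ∨ S = {0,1,2,4} ∨
          S = {0,1,2,3} := by
        have : ∀ S : Finset (Fin 5), S.card = 4 → (S = {1,2,3,4} ∨ S = {0,2,3,4} ∨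
            S = {0,1,3,4} ∨ S = {0,1,2,4} ∨ S = {0,1,2,3}) := by decide
        exact this S hc
      have lab : ∀ (S : Finset (Fin 5)) (j : Fin 5), j ∈ S → g (p j) ≤ label g (S.map P) := by
        intro S j hj
        exact Finset.le_sup (f := g) (Finset.mem_map_of_mem P hj)
      rcases hS' with rfl | rfl | rfl | rfl | rfl
      · exact ⟨2, by decide, h2.trans (sup_le (lab _ _ (by decide)) (lab _ _ (by decide)))⟩
      · exact ⟨1, by decide, h4.trans (sup_le (sup_le (lab _ _ (by decide)) (lab _ _ (by decide)))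
          (lab _ _ (by decide)))⟩
      · exact ⟨3, by decide, h3.trans (sup_le (lab _ _ (by decide)) (lab _ _ (by decide)))⟩
      · exact ⟨2, by decide, h2.trans (sup_le (lab _ _ (by decide)) (lab _ _ (by decide)))⟩
      · exact ⟨1, by decide, h4.trans (sup_le (sup_le (lab _ _ (by decide)) (lab _ _ (by decide)))
          (lab _ _ (by decide)))⟩
    obtain ⟨v, hv1, hv2⟩ := key
    have e : (S.map P).erase (p v) = (S.erase v).map P := by
      rw [Finset.map_erase]; rfl
    refine isScarf_not g hσ (p v) ?_ ?_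
    · rw [e]; exact hv1.map
    · rw [e]; exact hv2
  intro hex
  -- the cycle
  let s1 : Finset V := ({0,1,2,3} : Finset (Fin 5)).map P
  let s2 : Finset V := ({0,2,3,4} : Finset (Fin 5)).map P
  let f1 : MvPolynomial ι k := MvPolynomial.monomial (h - label g s1)
    ((-1) ^ (s1.filter (· < p 1)).card)
  let f2 : MvPolynomial ι k := MvPolynomial.monomial (h - label g s2)
    ((-1) ^ (s2.filter (· < p 4)).card)
  let t : Finset V →₀ MvPolynomial ι k := Finsupp.single s1 f1 - Finsupp.single s2 f2
  have er1 : ∀ j : Fin 5, s1.erase (p j) = (({0,1,2,3} : Finset (Fin 5)).erase j).map P := by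
    intro j
    rw [Finset.map_erase]; rfl
  have er2 : ∀ j : Fin 5, s2.erase (p j) = (({0,2,3,4} : Finset (Fin 5)).erase j).map P := by
    intro j
    rw [Finset.map_erase]; rfl
  -- explicit form of the cycle
  have hprod : ∀ (s : Finset V) (v : V) (n : ℕ), label g s ≤ h →
      (MvPolynomial.monomial (h - label g s) ((-1 : k) ^ n)) * cf k g s v =
      MvPolynomial.monomial (h - label g (s.erase v))
        ((-1 : k) ^ n * (-1) ^ (s.filter (· < v)).card) := by
    intro s v n hs
    unfold cf
    rw [MvPolynomial.monomial_mul,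
      tsub_add_tsub_cancel hs (label_mono g (Finset.erase_subset _ _))]
  have hd1 : diff k g (Finsupp.single s1 f1) =
      Finsupp.single (({1,2,3} : Finset (Fin 5)).map P) (f1 * cf k g s1 (p 0)) +
      (Finsupp.single (({0,2,3} : Finset (Fin 5)).map P) (f1 * cf k g s1 (p 1)) +
      (Finsupp.single (({0,1,3} : Finset (Fin 5)).map P) (f1 * cf k g s1 (p 2)) +
      Finsupp.single (({0,1,2} : Finset (Fin 5)).map P) (f1 * cf k g s1 (p 3)))) := by
    rw [diff_single, bd_eq, Finset.smul_sum]
    simp_rw [Finsupp.smul_single, smul_eq_mul]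
    have : ∀ F : V → (Finset V →₀ MvPolynomial ι k), ∑ v ∈ s1, F v =
        F (p 0) + (F (p 1) + (F (p 2) + F (p 3))) := by
      intro F
      show ∑ v ∈ ({0,1,2,3} : Finset (Fin 5)).map P, F v = _
      rw [Finset.sum_map]
      rw [Finset.sum_insert (by decide), Finset.sum_insert (by decide),
        Finset.sum_insert (by decide), Finset.sum_singleton]
      rfl
    rw [this, er1, er1, er1, er1]
    rfl
  have hd2 : diff k g (Finsupp.single s2 f2) =
      Finsupp.single (({2,3,4} : Finset (Fin 5)).map P) (f2 * cf k g s2 (p 0)) +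
      (Finsupp.single (({0,3,4} : Finset (Fin 5)).map P) (f2 * cf k g s2 (p 2)) +
      (Finsupp.single (({0,2,4} : Finset (Fin 5)).map P) (f2 * cf k g s2 (p 3)) +
      Finsupp.single (({0,2,3} : Finset (Fin 5)).map P) (f2 * cf k g s2 (p 4)))) := by
    rw [diff_single, bd_eq, Finset.smul_sum]
    simp_rw [Finsupp.smul_single, smul_eq_mul]
    have : ∀ F : V → (Finset V →₀ MvPolynomial ι k), ∑ v ∈ s2, F v =
        F (p 0) + (F (p 2) + (F (p 3) + F (p 4))) := by
      intro F
      show ∑ v ∈ ({0,2,3,4} : Finset (Fin 5)).map P, F v = _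
      rw [Finset.sum_map]
      rw [Finset.sum_insert (by decide), Finset.sum_insert (by decide),
        Finset.sum_insert (by decide), Finset.sum_singleton]
      rfl
    rw [this, er2, er2, er2, er2]
    rfl
  have hcancel : f1 * cf k g s1 (p 1) = f2 * cf k g s2 (p 4) := by
    rw [hprod s1 (p 1) _ (hle _), hprod s2 (p 4) _ (hle _), er1, er2, neg_one_mul_self,
      neg_one_mul_self]
    rfl
  have hdt : diff k g t =
      Finsupp.single (({1,2,3} : Finset (Fin 5)).map P) (f1 * cf k g s1 (p 0)) +
      Finsupp.single (({0,1,3} : Finset (Fin 5)).map P) (f1 * cf k g s1 (p 2)) +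
      Finsupp.single (({0,1,2} : Finset (Fin 5)).map P) (f1 * cf k g s1 (p 3)) -
      Finsupp.single (({2,3,4} : Finset (Fin 5)).map P) (f2 * cf k g s2 (p 0)) -
      Finsupp.single (({0,3,4} : Finset (Fin 5)).map P) (f2 * cf k g s2 (p 2)) -
      Finsupp.single (({0,2,4} : Finset (Fin 5)).map P) (f2 * cf k g s2 (p 3)) := by
    show diff k g (Finsupp.single s1 f1 - Finsupp.single s2 f2) = _
    rw [map_sub, hd1, hd2, hcancel]
    abel
  have hsupp : ∀ σ ∈ (diff k g t).support, σ ∈ {σ | IsScarf g σ} ∧ σ.card = 3 := by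
    intro σ hσ
    have hmem : ∃ T ∈ ({{0,1,2},{0,1,3},{0,2,4},{0,3,4},{1,2,3},{2,3,4}} :
        Finset (Finset (Fin 5))), σ = T.map P := by
      by_contra hcon
      push Not at hcon
      apply Finsupp.mem_support_iff.mp hσ
      rw [hdt]
      simp only [Finsupp.sub_apply, Finsupp.add_apply, Finsupp.single_apply]
      rw [if_neg (fun e => hcon {1,2,3} (by decide) e.symm),
        if_neg (fun e => hcon {0,1,3} (by decide) e.symm),
        if_neg (fun e => hcon {0,1,2} (by decide) e.symm),
        if_neg (fun e => hcon {2,3,4} (by decide) e.symm),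
        if_neg (fun e => hcon {0,3,4} (by decide) e.symm),
        if_neg (fun e => hcon {0,2,4} (by decide) e.symm)]
      simp
    obtain ⟨T, hT, rfl⟩ := hmem
    refine ⟨hS T hT, ?_⟩
    rw [Finset.card_map]
    have : ∀ T ∈ ({{0,1,2},{0,1,3},{0,2,4},{0,3,4},{1,2,3},{2,3,4}} :
        Finset (Finset (Fin 5))), T.card = 3 := by decide
    exact this T hT
  obtain ⟨c', hc', hc'2⟩ := hex (diff k g t) hsupp (diff_diff k g t)
  have hz := coeff_diff k g c' h (({0,1,2} : Finset (Fin 5)).map P) (hle _)
    (fun σ hσ => hN σ (hc' σ hσ).1 (hc' σ hσ).2)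
  rw [hc'2, hdt] at hz
  have hinj : ∀ A B : Finset (Fin 5), A ≠ B → A.map P ≠ B.map P := fun A B hAB e =>
    hAB (Finset.map_injective P e)
  simp only [Finsupp.sub_apply, Finsupp.add_apply, Finsupp.single_apply] at hz
  rw [if_neg (hinj _ _ (by decide)), if_neg (hinj _ _ (by decide)),
    if_neg (hinj _ _ (by decide)), if_neg (hinj _ _ (by decide)),
    if_neg (hinj _ _ (by decide)), if_pos trivial] at hz
  rw [hprod s1 (p 3) _ (hle _), er1] at hz
  have e3 : (({0,1,2,3} : Finset (Fin 5)).erase 3) = {0,1,2} := by decide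
  rw [e3] at hz
  simp at hz

end obstruction

end Pool.Agent.Q123.Scarf
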