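import Pool.Agent.Q123.VNum2

set_option autoImplicit false

/-!
Symbolic powers and symbolic defects of squarefree monomial ideals.
-/

namespace Pool.Agent.Q123

open MvPolynomial

variable {V : Type*} [Fintype V] [DecidableEq V] {K : Type*} [Field K]

/-- the exponent of the squarefree monomial of a finite set -/
noncomputable def sqf (S : Finset V) : V →₀ ℕ := ∑ v ∈ S, Finsupp.single v 1

omit [Fintype V] in
theorem sqf_apply (S : Finset V) (v : V) : sqf S v = if v ∈ S then 1 else 0 := by
  unfold sqf
  rw [Finsupp.finsetSum_apply]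
  simp only [Finsupp.single_apply]
  rw [Finset.sum_ite_eq']

/-- the ideal generated by the squarefree monomials of a family of finite sets -/
noncomputable def setIdeal (K : Type*) [Field K] (H : Set (Finset V)) :
    Ideal (MvPolynomial V K) :=
  Ideal.span {f | ∃ F ∈ H, f = monomial (sqf F) 1}

/-- the symbolic power `I^(m)`: the intersection of the `m`-th powers of the minimal primes -/
noncomputable def symbPow {R : Type*} [CommRing R] (I : Ideal R) (m : ℕ) : Ideal R :=
  ⨅ P ∈ I.minimalPrimes, P ^ m

/-- the symbolic defect: the least number `r` such that there are `r` elements of `I^(m)` which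
together with `I^m` generate `I^(m)`, i.e. the minimal number of generators of `I^(m)/I^m` -/
noncomputable def sdefect {R : Type*} [CommRing R] (I : Ideal R) (m : ℕ) : ℕ :=
  sInf {r | ∃ s : Finset R, s.card = r ∧ Ideal.span (s : Set R) ⊔ I ^ m = symbPow I m}

omit [Fintype V] [DecidableEq V] in
theorem mem_monomialSpan_iff {A : Set (V →₀ ℕ)} {f : MvPolynomial V K} :
    f ∈ Ideal.span ((fun s => monomial s (1 : K)) '' A) ↔ ∀ u ∈ f.support, ∃ s ∈ A, s ≤ u :=
  mem_ideal_span_monomial_image

/-- powers of the primes generated by variables -/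
theorem mem_primePow_iff (C : Finset V) (m : ℕ) (f : MvPolynomial V K) :
    f ∈ Ideal.span (X '' (C : Set V) : Set (MvPolynomial V K)) ^ m ↔
      ∀ u ∈ f.support, m ≤ ∑ j ∈ C, u j := by
  have hw : ∀ u : V →₀ ℕ, Finsupp.weight (fun i => if i ∈ C then 1 else 0 : V → ℕ) u =
      ∑ j ∈ C, u j := by
    intro u
    rw [Finsupp.weight_apply, Finsupp.sum_fintype _ _ (by simp)]
    simp
  constructor
  · intro h u hu
    have h1 : Ideal.span (X '' (C : Set V) : Set (MvPolynomial V K)) ≤
        wtIdeal K (fun i => if i ∈ C then 1 else 0) 1 := by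
      rw [Ideal.span_le]
      rintro _ ⟨i, hi, rfl⟩
      have : monomial (Finsupp.single i 1) (1 : K) ∈
          wtIdeal K (fun i => if i ∈ C then 1 else 0) 1 := by
        rw [monomial_mem_wtIdeal, hw]
        have hi' : i ∈ C := hi
        rw [Finset.sum_eq_single i (by
          intro j _ hj
          exact Finsupp.single_eq_of_ne hj) (fun h => absurd hi' h)]
        simp
      exact this
    have h2 := pow_le_wtIdeal h1 m h u hu
    rwa [hw, mul_one] at h2
  · intro h
    refine mem_of_forall_monomial_mem fun u hu => ?_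
    have h1 : monomial u (1 : K) = (∏ j ∈ C, X j ^ u j) * ∏ j ∈ Cᶜ, X j ^ u j := by
      rw [Finset.prod_mul_prod_compl, monomial_eq, C_1, one_mul,
        Finsupp.prod_fintype _ _ (by simp)]
    rw [h1]
    apply Ideal.mul_mem_right
    have h2 : (∏ j ∈ C, X j ^ u j : MvPolynomial V K) ∈
        ∏ j ∈ C, Ideal.span (X '' (C : Set V) : Set (MvPolynomial V K)) ^ u j :=
      Ideal.prod_mem_prod fun j hj => Ideal.pow_mem_pow
        (Ideal.subset_span (Set.mem_image_of_mem X (Finset.mem_coe.2 hj))) _
    rw [Finset.prod_pow_eq_pow_sum] at h2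
    exact Ideal.pow_le_pow_right (h u hu) h2

/-- `C` is a vertex cover of the family `H` -/
def Covers (H : Set (Finset V)) (C : Finset V) : Prop := ∀ F ∈ H, ∃ v ∈ F, v ∈ C

omit [Fintype V] in
theorem setIdeal_le {H : Set (Finset V)} {C : Finset V} (hC : Covers H C) :
    setIdeal K H ≤ Ideal.span (X '' (C : Set V) : Set (MvPolynomial V K)) := by
  unfold setIdeal
  rw [Ideal.span_le]
  rintro _ ⟨F, hF, rfl⟩
  obtain ⟨v, hv, hvC⟩ := hC F hF
  have : monomial (sqf F) (1 : K) ∈ Ideal.span (X '' (C : Set V) : Set (MvPolynomial V K)) := by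
    rw [mem_span_X_image_iff, support_monomial_one]
    intro u hu
    rw [Finset.mem_singleton] at hu
    subst hu
    exact ⟨v, hvC, by rw [sqf_apply, if_pos hv]; exact one_ne_zero⟩
  exact this

theorem minimalPrime_eq {H : Set (Finset V)} {P : Ideal (MvPolynomial V K)}
    (hP : P ∈ (setIdeal K H).minimalPrimes) :
    ∃ C : Finset V, Covers H C ∧ P = Ideal.span (X '' (C : Set V)) := by
  classical
  obtain ⟨⟨hprime, hle⟩, hmin⟩ := hP
  let C : Finset V := Finset.univ.filter fun j => (X j : MvPolynomial V K) ∈ P
  have hC : Covers H C := by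
    intro F hF
    have h1 : monomial (sqf F) (1 : K) ∈ P := hle (Ideal.subset_span ⟨F, hF, rfl⟩)
    have h2 : monomial (sqf F) (1 : K) = ∏ v ∈ F, X v := by
      unfold sqf
      rw [monomial_sum_one]
      rfl
    rw [h2, hprime.prod_mem_iff] at h1
    obtain ⟨v, hv, hvP⟩ := h1
    exact ⟨v, hv, Finset.mem_filter.2 ⟨Finset.mem_univ _, hvP⟩⟩
  have hCP : Ideal.span (X '' (C : Set V) : Set (MvPolynomial V K)) ≤ P := by
    rw [Ideal.span_le]
    rintro _ ⟨j, hj, rfl⟩
    exact (Finset.mem_filter.1 hj).2
  refine ⟨C, hC, le_antisymm (hmin ⟨isPrime_span_X_image _, setIdeal_le hC⟩ hCP) hCP⟩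

/-- membership in the symbolic powers -/
theorem mem_symbPow_iff {H : Set (Finset V)} {m : ℕ} {f : MvPolynomial V K} :
    f ∈ symbPow (setIdeal K H) m ↔
      ∀ C : Finset V, Covers H C → ∀ u ∈ f.support, m ≤ ∑ j ∈ C, u j := by
  unfold symbPow
  rw [Ideal.mem_iInf]
  simp only [Ideal.mem_iInf]
  constructor
  · intro h C hC u hu
    have := isPrime_span_X_image (K := K) (C : Set V)
    obtain ⟨P, hP, hPC⟩ := Ideal.exists_minimalPrimes_le (setIdeal_le (K := K) hC)
    have h1 := Ideal.pow_right_mono hPC m (h P hP)
    exact (mem_primePow_iff C m f).1 h1 u hu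
  · intro h P hP
    obtain ⟨C, hC, rfl⟩ := minimalPrime_eq hP
    rw [mem_primePow_iff]
    exact h C hC

omit [Fintype V] [DecidableEq V] in
theorem pow_le_symbPow (H : Set (Finset V)) (m : ℕ) :
    setIdeal K H ^ m ≤ symbPow (setIdeal K H) m := by
  unfold symbPow
  refine le_iInf fun P => le_iInf fun hP => ?_
  exact Ideal.pow_right_mono hP.1.2 m

/-- the exponents of the symbolic power -/
def symbExp (H : Set (Finset V)) (m : ℕ) : Set (V →₀ ℕ) :=
  {u | ∀ C : Finset V, Covers H C → m ≤ ∑ j ∈ C, u j}

/-- a lower bound for the symbolic defect -/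
theorem le_sdefect {H : Set (Finset V)} {m : ℕ} (G : Finset (V →₀ ℕ))
    (h1 : ∀ u ∈ G, u ∈ symbExp H m) (h2 : ∀ u ∈ G, ∀ w ∈ symbExp H m, w ≤ u → w = u)
    (h3 : ∀ u ∈ G, ∀ f ∈ setIdeal K H ^ m, coeff u f = 0) :
    G.card ≤ sdefect (setIdeal K H) m := by
  classical
  apply le_csInf
  · obtain ⟨s, hs⟩ := IsNoetherian.noetherian (symbPow (setIdeal K H) m)
    refine ⟨s.card, s, rfl, ?_⟩
    have hs' : Ideal.span (s : Set (MvPolynomial V K)) = symbPow (setIdeal K H) m := hs
    rw [hs']
    exact sup_eq_left.2 (pow_le_symbPow H m)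
  · rintro r ⟨s, rfl, hs⟩
    -- the coefficient map
    let ψ : MvPolynomial V K →ₗ[K] (G → K) :=
      LinearMap.pi fun u => lcoeff K (u : V →₀ ℕ)
    have hψ : ∀ f u, ψ f u = coeff (u : V →₀ ℕ) f := fun f u => rfl
    have hmul : ∀ g f, f ∈ symbPow (setIdeal K H) m → ψ (g * f) = coeff 0 g • ψ f := by
      intro g f hf
      funext u
      rw [Pi.smul_apply, hψ, hψ, coeff_mul, smul_eq_mul]
      rw [Finset.sum_eq_single ((0, (u : V →₀ ℕ)) : (V →₀ ℕ) × (V →₀ ℕ))]
      · rintro ⟨a, b⟩ hab hne
        rw [Finset.HasAntidiagonal.mem_antidiagonal] at hab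
        by_cases hb : coeff b f = 0
        · simp only [hb, mul_zero]
        · exfalso
          have hb' : b ∈ symbExp H m := fun C hC =>
            mem_symbPow_iff.1 hf C hC b (mem_support_iff.2 hb)
          have hle : b ≤ u := by
            simp only at hab
            rw [← hab]
            exact le_add_self
          have hbu := h2 u u.2 b hb' hle
          apply hne
          simp only at hab
          rw [hbu] at hab
          have ha : a = 0 := by simpa using hab
          rw [ha, hbu]
      · intro h
        exfalso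
        apply h
        rw [Finset.HasAntidiagonal.mem_antidiagonal]
        simp
    have hrange : ∀ f ∈ symbPow (setIdeal K H) m,
        ψ f ∈ Submodule.span K ((s.image ψ : Finset (G → K)) : Set (G → K)) := by
      intro f hf
      rw [← hs] at hf
      obtain ⟨a, ha, b, hb, rfl⟩ := Submodule.mem_sup.1 hf
      have hb0 : ψ b = 0 := by
        funext u
        rw [hψ]
        exact h3 u u.2 b hb
      rw [map_add, hb0, add_zero]
      clear hf hb hb0
      induction ha using Submodule.span_induction with
      | mem x hx =>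
        apply Submodule.subset_span
        rw [Finset.coe_image]
        exact ⟨x, hx, rfl⟩
      | zero => rw [map_zero]; exact Submodule.zero_mem _
      | add x y _ _ hx hy => rw [map_add]; exact Submodule.add_mem _ hx hy
      | smul g x hxs hx =>
        have hx' : x ∈ symbPow (setIdeal K H) m := by
          rw [← hs]
          exact Submodule.mem_sup_left hxs
        rw [smul_eq_mul, hmul g x hx']
        exact Submodule.smul_mem _ _ hx
    have htop : Submodule.span K ((s.image ψ : Finset (G → K)) : Set (G → K)) = ⊤ := by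
      rw [eq_top_iff, ← (Pi.basisFun K G).span_eq, Submodule.span_le]
      rintro _ ⟨u, rfl⟩
      have h4 : ψ (monomial (u : V →₀ ℕ) 1) = Pi.basisFun K G u := by
        funext v
        rw [hψ, coeff_monomial, Pi.basisFun_apply, Pi.single_apply]
        by_cases h : v = u
        · subst h; simp
        · rw [if_neg h, if_neg]
          intro h'
          exact h (Subtype.ext h'.symm)
      show Pi.basisFun K G u ∈ _
      rw [← h4]
      apply hrange
      rw [mem_symbPow_iff]
      intro C hC w hw
      rw [support_monomial_one, Finset.mem_singleton] at hw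
      subst hw
      exact h1 u u.2 C hC
    have h5 : Module.finrank K (G → K) ≤ (s.image ψ).card := by
      have h6 := finrank_span_finset_le_card (R := K) (s.image ψ)
      rw [Set.finrank, htop, finrank_top] at h6
      exact h6
    rw [Module.finrank_pi, Fintype.card_coe] at h5
    exact h5.trans Finset.card_image_le

/-- an upper bound for the symbolic defect -/
theorem sdefect_le {H : Set (Finset V)} {m : ℕ} (A : Finset (V →₀ ℕ))
    (h1 : ∀ u ∈ A, u ∈ symbExp H m) (h2 : ∀ w ∈ symbExp H m, ∃ u ∈ A, u ≤ w) :
    sdefect (setIdeal K H) m ≤ A.card := by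
  classical
  have hs : Ideal.span ((A.image fun u => monomial u (1 : K) : Finset (MvPolynomial V K)) :
      Set (MvPolynomial V K)) ⊔ setIdeal K H ^ m = symbPow (setIdeal K H) m := by
    apply le_antisymm
    · apply sup_le _ (pow_le_symbPow H m)
      rw [Ideal.span_le]
      intro f hf
      rw [Finset.coe_image] at hf
      obtain ⟨u, hu, rfl⟩ := hf
      show monomial u (1 : K) ∈ symbPow (setIdeal K H) m
      rw [mem_symbPow_iff]
      intro C hC w hw
      rw [support_monomial_one, Finset.mem_singleton] at hw
      subst hw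
      exact h1 w hu C hC
    · intro f hf
      apply Submodule.mem_sup_left
      rw [Finset.coe_image]
      show f ∈ Ideal.span ((fun u => monomial u (1 : K)) '' (A : Set (V →₀ ℕ)))
      rw [mem_monomialSpan_iff]
      intro w hw
      obtain ⟨u, hu, hle⟩ := h2 w (fun C hC => mem_symbPow_iff.1 hf C hC w hw)
      exact ⟨u, hu, hle⟩
  have h3 : sdefect (setIdeal K H) m ≤ (A.image fun u => monomial u (1 : K)).card :=
    Nat.sInf_le ⟨A.image fun u => monomial u (1 : K), rfl, hs⟩
  exact h3.trans Finset.card_image_le

end Pool.Agent.Q123
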