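import Pool.Agent.Q123.Wt

set_option autoImplicit false

/-!
Ideals of polynomials given by a superadditive function on the exponents, and generalities on
local v-numbers.
-/

namespace Pool.Agent.Q123

open MvPolynomial

variable {σ : Type*} {K : Type*} [Field K]

/-- The ideal of the polynomials all of whose exponents `u` satisfy `k ≤ φ u`, for a superadditive
function `φ`. -/
def supIdeal (K : Type*) [Field K] (φ : (σ →₀ ℕ) → ℕ) (hφ : ∀ u v, φ u + φ v ≤ φ (u + v)) (k : ℕ) :
    Ideal (MvPolynomial σ K) where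
  carrier := {f | ∀ u ∈ f.support, k ≤ φ u}
  add_mem' := by
    classical
    intro a b ha hb u hu
    rcases Finset.mem_union.1 (MvPolynomial.support_add hu) with h | h
    · exact ha u h
    · exact hb u h
  zero_mem' := by
    intro u hu
    simp at hu
  smul_mem' := by
    classical
    intro c f hf u hu
    rw [smul_eq_mul] at hu
    obtain ⟨a, -, b, hb, rfl⟩ := Finset.mem_add.1 (MvPolynomial.support_mul _ _ hu)
    exact ((hf b hb).trans (Nat.le_add_left _ _)).trans (hφ a b)

theorem mem_supIdeal {φ : (σ →₀ ℕ) → ℕ} {hφ : ∀ u v, φ u + φ v ≤ φ (u + v)} {k : ℕ}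
    {f : MvPolynomial σ K} : f ∈ supIdeal K φ hφ k ↔ ∀ u ∈ f.support, k ≤ φ u := Iff.rfl

theorem mul_mem_supIdeal {φ : (σ →₀ ℕ) → ℕ} {hφ : ∀ u v, φ u + φ v ≤ φ (u + v)} {k l : ℕ}
    {f g : MvPolynomial σ K} (hf : f ∈ supIdeal K φ hφ k) (hg : g ∈ supIdeal K φ hφ l) :
    f * g ∈ supIdeal K φ hφ (k + l) := by
  classical
  intro u hu
  obtain ⟨a, ha, b, hb, rfl⟩ := Finset.mem_add.1 (MvPolynomial.support_mul _ _ hu)
  exact (add_le_add (hf a ha) (hg b hb)).trans (hφ a b)

theorem pow_le_supIdeal {φ : (σ →₀ ℕ) → ℕ} {hφ : ∀ u v, φ u + φ v ≤ φ (u + v)} {k : ℕ}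
    {I : Ideal (MvPolynomial σ K)} (h : I ≤ supIdeal K φ hφ k) (n : ℕ) :
    I ^ n ≤ supIdeal K φ hφ (n * k) := by
  induction n with
  | zero =>
    intro f _ u _
    simp
  | succ n ih =>
    rw [pow_succ, Ideal.mul_le]
    intro r hr s hs
    rw [Nat.succ_mul]
    exact mul_mem_supIdeal (ih hr) (h hs)

theorem support_monomial_one (u : σ →₀ ℕ) : (monomial u (1 : K)).support = {u} := by
  classical
  rw [support_monomial, if_neg one_ne_zero]

theorem monomial_mem_supIdeal {φ : (σ →₀ ℕ) → ℕ} {hφ : ∀ u v, φ u + φ v ≤ φ (u + v)} {k : ℕ}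
    {u : σ →₀ ℕ} : monomial u (1 : K) ∈ supIdeal K φ hφ k ↔ k ≤ φ u := by
  rw [mem_supIdeal, support_monomial_one]
  simp

/-- a monomial ideal: `f` belongs to it as soon as all the monomials of `f` do -/
theorem mem_of_forall_monomial_mem {J : Ideal (MvPolynomial σ K)} {f : MvPolynomial σ K}
    (h : ∀ u ∈ f.support, monomial u (1 : K) ∈ J) : f ∈ J := by
  rw [← support_sum_monomial_coeff f]
  refine Ideal.sum_mem _ fun u hu => ?_
  have : monomial u (coeff u f) = C (coeff u f) * monomial u (1 : K) := by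
    rw [C_mul_monomial, mul_one]
  rw [this]
  exact Ideal.mul_mem_left _ _ (h u hu)

theorem support_X_mul' (i : σ) (f : MvPolynomial σ K) {u : σ →₀ ℕ} (hu : u ∈ f.support) :
    u + Finsupp.single i 1 ∈ (X i * f).support := by
  classical
  rw [mem_support_iff] at hu ⊢
  rw [mul_comm, coeff_mul_X]
  exact hu

end Pool.Agent.Q123
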