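import Mathlib

set_option autoImplicit false

/-!
Ideals of polynomials all of whose monomials have weight at least `k`, for a weight `w` on the
variables with values in `ℕ`, and the corresponding primary property.
-/

namespace Pool.Agent.Q123

open MvPolynomial

variable {σ : Type*} {K : Type*} [Field K]

theorem le_weightedOrder_iff (w : σ → ℕ) (k : ℕ) (f : MvPolynomial σ K) :
    (k : ℕ∞) ≤ (f : MvPowerSeries σ K).weightedOrder w ↔
      ∀ u ∈ f.support, k ≤ Finsupp.weight w u := by
  constructor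
  · intro h u hu
    by_contra hlt
    rw [not_le] at hlt
    have h1 := MvPowerSeries.coeff_eq_zero_of_lt_weightedOrder (w := w)
      (f := (f : MvPowerSeries σ K)) (d := u) (lt_of_lt_of_le (by exact_mod_cast hlt) h)
    rw [MvPolynomial.coeff_coe] at h1
    exact (MvPolynomial.mem_support_iff.1 hu) h1
  · intro h
    refine MvPowerSeries.nat_le_weightedOrder w fun d hd => ?_
    rw [MvPolynomial.coeff_coe]
    by_contra hne
    exact absurd (h d (MvPolynomial.mem_support_iff.2 hne)) (not_le.2 hd)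

/-- The ideal of the polynomials all of whose monomials have weight at least `k`. -/
def wtIdeal (K : Type*) [Field K] (w : σ → ℕ) (k : ℕ) : Ideal (MvPolynomial σ K) where
  carrier := {f | ∀ u ∈ f.support, k ≤ Finsupp.weight w u}
  add_mem' := by
    classical
    intro a b ha hb u hu
    rcases Finset.mem_union.1 (MvPolynomial.support_add hu) with h | h
    · exact ha u h
    · exact hb u h
  zero_mem' := by
    intro u hu
    simp at hu
  smul_mem' := by
    classical
    intro c f hf u hu
    rw [smul_eq_mul] at hu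
    obtain ⟨a, -, b, hb, rfl⟩ := Finset.mem_add.1 (MvPolynomial.support_mul _ _ hu)
    rw [map_add]
    exact (hf b hb).trans (Nat.le_add_left _ _)

theorem mem_wtIdeal {w : σ → ℕ} {k : ℕ} {f : MvPolynomial σ K} :
    f ∈ wtIdeal K w k ↔ ∀ u ∈ f.support, k ≤ Finsupp.weight w u := Iff.rfl

theorem mem_wtIdeal_iff_order {w : σ → ℕ} {k : ℕ} {f : MvPolynomial σ K} :
    f ∈ wtIdeal K w k ↔ (k : ℕ∞) ≤ (f : MvPowerSeries σ K).weightedOrder w :=
  (le_weightedOrder_iff w k f).symm

/-- If `s` has a monomial of weight zero then `s g ∈ wtIdeal w k` forces `g ∈ wtIdeal w k`. -/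
theorem mem_wtIdeal_of_mul {w : σ → ℕ} {k : ℕ} {s g : MvPolynomial σ K}
    (hs : s ∉ wtIdeal K w 1) (h : s * g ∈ wtIdeal K w k) : g ∈ wtIdeal K w k := by
  rw [mem_wtIdeal_iff_order] at hs h ⊢
  rw [MvPolynomial.coe_mul, MvPowerSeries.weightedOrder_mul] at h
  have h0 : (s : MvPowerSeries σ K).weightedOrder w = 0 := by
    rw [not_le, Nat.cast_one, Order.lt_one_iff] at hs
    exact hs
  rwa [h0, zero_add] at h

theorem mul_mem_wtIdeal {w : σ → ℕ} {k l : ℕ} {f g : MvPolynomial σ K}
    (hf : f ∈ wtIdeal K w k) (hg : g ∈ wtIdeal K w l) : f * g ∈ wtIdeal K w (k + l) := by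
  classical
  intro u hu
  obtain ⟨a, ha, b, hb, rfl⟩ := Finset.mem_add.1 (MvPolynomial.support_mul _ _ hu)
  rw [map_add]
  exact add_le_add (hf a ha) (hg b hb)

theorem pow_le_wtIdeal {w : σ → ℕ} {k : ℕ} {I : Ideal (MvPolynomial σ K)}
    (h : I ≤ wtIdeal K w k) (n : ℕ) : I ^ n ≤ wtIdeal K w (n * k) := by
  induction n with
  | zero =>
    intro f _ u _
    simp
  | succ n ih =>
    rw [pow_succ, Ideal.mul_le]
    intro r hr s hs
    rw [Nat.succ_mul]
    exact mul_mem_wtIdeal (ih hr) (h hs)

theorem monomial_mem_wtIdeal {w : σ → ℕ} {k : ℕ} {u : σ →₀ ℕ} :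
    monomial u (1 : K) ∈ wtIdeal K w k ↔ k ≤ Finsupp.weight w u := by
  rw [mem_wtIdeal]
  constructor
  · intro h
    refine h u ?_
    classical
    rw [MvPolynomial.mem_support_iff, MvPolynomial.coeff_monomial, if_pos rfl]
    exact one_ne_zero
  · intro h v hv
    have : v = u := by
      have := MvPolynomial.support_monomial_subset hv
      simpa using this
    rwa [this]

/-- `wtIdeal w 1` is prime. -/
theorem wtIdeal_one_isPrime (w : σ → ℕ) : (wtIdeal K w 1).IsPrime := by
  refine ⟨?_, ?_⟩
  · intro h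
    have h1 : (1 : MvPolynomial σ K) ∈ wtIdeal K w 1 := by rw [h]; trivial
    have h2 : monomial (0 : σ →₀ ℕ) (1 : K) ∈ wtIdeal K w 1 := h1
    rw [monomial_mem_wtIdeal] at h2
    simp at h2
  · intro f g hfg
    by_cases hf : f ∈ wtIdeal K w 1
    · exact Or.inl hf
    · exact Or.inr (mem_wtIdeal_of_mul hf hfg)

end Pool.Agent.Q123
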